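import Pool.Agent.Helper42.TW.C12

/-! # C13: genericity of the torsion classes (MP_1d384c_nt) -/

set_option autoImplicit false

namespace Pool.Agent.Helper42.TW

open Finset Pool.Agent.Helper54.PT

variable {ℓ : ℕ} [Fact ℓ.Prime] {ι : Type} [Fintype ι] [DecidableEq ι] (a : ι → ℕ) (i₀ : ι)

/-- Extension by zero. -/
def c13_z (w : {j : ι // j ≠ i₀} → ZMod ℓ) (i : ι) : ZMod ℓ := if h : i = i₀ then 0 else w ⟨i, h⟩

theorem c13_sum (w : {j : ι // j ≠ i₀} → ZMod ℓ) (i : ι) (X : ZMod ℓ) :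
    ∑ j : {j : ι // j ≠ i₀}, w j * (if j.1 = i then X else 0) = c13_z i₀ w i * X := by
  unfold c13_z
  split_ifs with h
  · rw [zero_mul]
    refine sum_eq_zero fun j _ => ?_
    rw [if_neg (fun h2 => j.2 (h2.trans h)), mul_zero]
  · rw [sum_eq_single ⟨i, h⟩]
    · rw [if_pos rfl]
    · intro j _ hj
      rw [if_neg (fun h2 => hj (Subtype.ext h2)), mul_zero]
    · intro h2
      exact absurd (mem_univ _) h2

/-- Two equivalence relations whose union is total. -/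
theorem c13_total {ι : Type} (R S : ι → ι → Prop) (hR : Equivalence R) (hS : Equivalence S)
    (h : ∀ i j, R i j ∨ S i j) : (∀ i j, R i j) ∨ ∀ i j, S i j := by
  by_contra hcon
  push Not at hcon
  obtain ⟨⟨i, j, hij⟩, k, l, hkl⟩ := hcon
  have hs : ∀ m, S i m := by
    intro m
    rcases h i m with h1 | h1
    · have h2 : ¬ R j m := fun h3 => hij (hR.trans h1 (hR.symm h3))
      have h3 := (h j m).resolve_left h2
      exact hS.trans ((h i j).resolve_left hij) h3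
    · exact h1
  exact hkl (hS.trans (hS.symm (hs k)) (hs l))

/-- Two linear forms with product zero on a subspace. -/
theorem c13_forms {V : Type} [AddCommGroup V] [Module (ZMod ℓ) V] (W : Submodule (ZMod ℓ) V)
    (f g : V → ZMod ℓ) (hf : ∀ x y, f (x + y) = f x + f y) (hg : ∀ x y, g (x + y) = g x + g y)
    (h : ∀ w ∈ W, f w * g w = 0) : (∀ w ∈ W, f w = 0) ∨ ∀ w ∈ W, g w = 0 := by
  by_contra hcon
  push Not at hcon
  obtain ⟨⟨x, hx, hfx⟩, y, hy, hgy⟩ := hcon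
  have h1 := (mul_eq_zero.1 (h x hx)).resolve_left hfx
  have h2 := (mul_eq_zero.1 (h y hy)).resolve_right hgy
  have h3 := h (x + y) (W.add_mem hx hy)
  rw [hf, hg, h1, h2, add_zero, zero_add] at h3
  exact (mul_ne_zero hfx hgy) h3

end Pool.Agent.Helper42.TW

namespace Pool.Agent.Helper54.PT

open Finset Module Pool.Agent.Helper42.TW

section Algebra

variable {ℓ : ℕ} [Fact ℓ.Prime] {ι : Type} [Fintype ι] [DecidableEq ι] (a : ι → ℕ) (i₀ : ι)
  {σ : Type} [Fintype σ] [DecidableEq σ] (i₁ i₂ : σ → ι) (lgl : ι → ι → ZMod ℓ)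
  (dR : σ → ZMod ℓ) (sR : σ → σ → ZMod ℓ)

omit [DecidableEq σ] [Fintype σ] in
theorem c13_quad (r : σ) (hr : i₁ r ≠ i₂ r) (v w : {j : ι // j ≠ i₀} → ZMod ℓ) :
    ∑ j, w j * tau a i₀ i₁ i₂ lgl v j (some r) =
      (asum ℓ a)⁻¹ * (Helper54.PT.ext a i₀ v (i₁ r) - Helper54.PT.ext a i₀ v (i₂ r)) *
        ((a (i₂ r) : ZMod ℓ) * c13_z i₀ w (i₁ r) - (a (i₁ r) : ZMod ℓ) * c13_z i₀ w (i₂ r)) := by
  have h1 : ∀ j : {j : ι // j ≠ i₀}, w j * tau a i₀ i₁ i₂ lgl v j (some r) =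
      w j * (if j.1 = i₁ r then (a (i₂ r) : ZMod ℓ) * (asum ℓ a)⁻¹ *
        (Helper54.PT.ext a i₀ v (i₁ r) - Helper54.PT.ext a i₀ v (i₂ r)) else 0) +
      w j * (if j.1 = i₂ r then (a (i₁ r) : ZMod ℓ) * (asum ℓ a)⁻¹ *
        (Helper54.PT.ext a i₀ v (i₂ r) - Helper54.PT.ext a i₀ v (i₁ r)) else 0) := by
    intro j
    have h2 : tau a i₀ i₁ i₂ lgl v j (some r) =
      if j.1 = i₁ r then (a (i₂ r) : ZMod ℓ) * (asum ℓ a)⁻¹ *
        (Helper54.PT.ext a i₀ v (i₁ r) - Helper54.PT.ext a i₀ v (i₂ r))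
      else if j.1 = i₂ r then (a (i₁ r) : ZMod ℓ) * (asum ℓ a)⁻¹ *
        (Helper54.PT.ext a i₀ v (i₂ r) - Helper54.PT.ext a i₀ v (i₁ r)) else 0 := rfl
    rw [h2]
    by_cases h3 : j.1 = i₁ r
    · rw [if_pos h3, if_pos h3, if_neg (fun h4 => hr (h3.symm.trans h4)), mul_zero, add_zero]
    · rw [if_neg h3, if_neg h3, mul_zero, zero_add]
  simp only [h1]
  rw [sum_add_distrib, c13_sum, c13_sum]
  ring

/-- C13: genericity (uses B13 `coset_of_unl`) -/
theorem generic_tau (hℓ : ℓ ≠ 2) (ha : ∀ i, ¬ ℓ ∣ a i) (hs : ¬ ℓ ∣ ∑ i, a i)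
    (hne : ∀ r, i₁ r ≠ i₂ r) (hpair : ∀ i j, i ≠ j → ∃ r, s(i₁ r, i₂ r) = s(i, j))
    (b13 : ∀ 𝒰 : Finset (({j : ι // j ≠ i₀} → ZMod ℓ) × ({j : ι // j ≠ i₀} → ZMod ℓ)),
      Unl PhiJ 𝒰 → 𝒰.card = ℓ ^ Fintype.card {j : ι // j ≠ i₀} →
      ∃ (u₀ : ({j : ι // j ≠ i₀} → ZMod ℓ) × ({j : ι // j ≠ i₀} → ZMod ℓ))
        (W : Submodule (ZMod ℓ) (({j : ι // j ≠ i₀} → ZMod ℓ) × ({j : ι // j ≠ i₀} → ZMod ℓ))),
        finrank (ZMod ℓ) W = Fintype.card {j : ι // j ≠ i₀} ∧ ∀ u, u ∈ 𝒰 ↔ u - u₀ ∈ W) :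
    Generic (tau a i₀ i₁ i₂ lgl) := by
  intro 𝒰 hU hcard hstd
  by_contra hcon
  push Not at hcon
  obtain ⟨u₀, W, hW, hmem⟩ := b13 𝒰 hU hcard
  have h2 : (2 : ZMod ℓ) ≠ 0 := by
    have := c12_cast_ne (ℓ := ℓ) (n := 2) (fun h => hℓ ((Nat.prime_dvd_prime_iff_eq Fact.out
      Nat.prime_two).1 h))
    exact_mod_cast this
  have hA : asum ℓ a ≠ 0 := by
    have := c12_cast_ne hs
    push_cast at this
    exact this
  have hB : ∀ r, ∀ w ∈ W, ∑ j, w.2 j * tau a i₀ i₁ i₂ lgl w.1 j (some r) = 0 := by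
    intro r w hw
    obtain ⟨η, ω, c, hc⟩ := hcon r
    have hF : ∀ u ∈ 𝒰, ∑ j, (u.2 j * tau a i₀ i₁ i₂ lgl u.1 j (some r) -
        (η j * u.1 j + ω j * u.2 j)) = c := by
      intro u hu
      rw [sum_sub_distrib, hc u hu]
      ring
    have m0 : u₀ ∈ 𝒰 := (hmem _).2 (by rw [sub_self]; exact W.zero_mem)
    have m1 : u₀ + w ∈ 𝒰 := (hmem _).2 (by rw [add_sub_cancel_left]; exact hw)
    have m2 : u₀ - w ∈ 𝒰 := (hmem _).2 (by
      rw [sub_sub_cancel_left]; exact W.neg_mem hw)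
    have h3 : ∑ j, 2 * (w.2 j * tau a i₀ i₁ i₂ lgl w.1 j (some r)) = 0 := by
      calc ∑ j, 2 * (w.2 j * tau a i₀ i₁ i₂ lgl w.1 j (some r)) =
          ∑ j, ((((u₀ + w).2 j * tau a i₀ i₁ i₂ lgl (u₀ + w).1 j (some r) -
            (η j * (u₀ + w).1 j + ω j * (u₀ + w).2 j)) +
            ((u₀ - w).2 j * tau a i₀ i₁ i₂ lgl (u₀ - w).1 j (some r) -
            (η j * (u₀ - w).1 j + ω j * (u₀ - w).2 j))) -
            2 * (u₀.2 j * tau a i₀ i₁ i₂ lgl u₀.1 j (some r) - (η j * u₀.1 j + ω j * u₀.2 j))) := by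
            refine sum_congr rfl fun j _ => ?_
            rw [Prod.fst_add, Prod.snd_add, Prod.fst_sub, Prod.snd_sub, map_add, map_sub]
            simp only [Pi.add_apply, Pi.sub_apply]
            ring
        _ = 0 := by
            rw [sum_sub_distrib, sum_add_distrib, ← mul_sum, hF _ m0, hF _ m1, hF _ m2]
            ring
    rw [← mul_sum] at h3
    exact (mul_eq_zero.1 h3).resolve_left h2
  set p : (({j : ι // j ≠ i₀} → ZMod ℓ) × ({j : ι // j ≠ i₀} → ZMod ℓ)) → ι → ZMod ℓ :=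
    fun w i => Helper54.PT.ext a i₀ w.1 i with hp
  set q : (({j : ι // j ≠ i₀} → ZMod ℓ) × ({j : ι // j ≠ i₀} → ZMod ℓ)) → ι → ZMod ℓ :=
    fun w i => (a i : ZMod ℓ)⁻¹ * c13_z i₀ w.2 i with hq
  have padd : ∀ x y i, p (x + y) i = p x i + p y i := by
    intro x y i
    simp only [hp, Prod.fst_add, ext_add, Pi.add_apply]
  have qadd : ∀ x y i, q (x + y) i = q x i + q y i := by
    intro x y i
    simp only [hq, Prod.snd_add, c13_z, Pi.add_apply]
    split_ifs <;> ring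
  have hpq : ∀ i j, i ≠ j → ∀ w ∈ W, (p w i - p w j) * (q w i - q w j) = 0 := by
    have key : ∀ r, ∀ w ∈ W, (p w (i₁ r) - p w (i₂ r)) * (q w (i₁ r) - q w (i₂ r)) = 0 := by
      intro r w hw
      have h3 := hB r w hw
      rw [c13_quad a i₀ i₁ i₂ lgl r (hne r)] at h3
      have h4 := c12_cast_ne (ha (i₁ r))
      have h5 := c12_cast_ne (ha (i₂ r))
      have h6 : (p w (i₁ r) - p w (i₂ r)) * (q w (i₁ r) - q w (i₂ r)) =
          asum ℓ a * (a (i₁ r) : ZMod ℓ)⁻¹ * (a (i₂ r) : ZMod ℓ)⁻¹ *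
          ((asum ℓ a)⁻¹ * (Helper54.PT.ext a i₀ w.1 (i₁ r) - Helper54.PT.ext a i₀ w.1 (i₂ r)) *
        ((a (i₂ r) : ZMod ℓ) * c13_z i₀ w.2 (i₁ r) - (a (i₁ r) : ZMod ℓ) * c13_z i₀ w.2 (i₂ r))) := by
        simp only [hp, hq]
        field_simp
      rw [h6, h3, mul_zero]
    intro i j hij w hw
    obtain ⟨r, hr⟩ := hpair i j hij
    rcases Sym2.eq_iff.1 hr with ⟨h3, h4⟩ | ⟨h3, h4⟩
    · have := key r w hw
      rwa [h3, h4] at this
    · have := key r w hw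
      rw [h3, h4] at this
      linear_combination this
  have hRS : ∀ i j, (∀ w ∈ W, p w i = p w j) ∨ ∀ w ∈ W, q w i = q w j := by
    intro i j
    by_cases hij : i = j
    · left
      intro w _
      rw [hij]
    · rcases c13_forms W (fun w => p w i - p w j) (fun w => q w i - q w j)
        (fun x y => by simp only [padd]; ring) (fun x y => by simp only [qadd]; ring)
        (hpq i j hij) with h | h
      · left
        exact fun w hw => sub_eq_zero.1 (h w hw)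
      · right
        exact fun w hw => sub_eq_zero.1 (h w hw)
  have hdim : ∀ f : (({j : ι // j ≠ i₀} → ZMod ℓ) × ({j : ι // j ≠ i₀} → ZMod ℓ)) →ₗ[ZMod ℓ]
      ({j : ι // j ≠ i₀} → ZMod ℓ), Function.Surjective f → (∀ w ∈ W, f w = 0) →
      ∀ w, w ∈ W ↔ f w = 0 := by
    intro f hf hfW
    have h3 : W ≤ LinearMap.ker f := fun w hw => LinearMap.mem_ker.2 (hfW w hw)
    have h4 := LinearMap.finrank_range_add_finrank_ker f
    rw [LinearMap.range_eq_top.2 hf, finrank_top, finrank_prod, finrank_fintype_fun_eq_card] at h4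
    have h5 : W = LinearMap.ker f := Submodule.eq_of_le_of_finrank_eq h3 (by rw [hW]; omega)
    intro w
    rw [h5, LinearMap.mem_ker]
  rcases c13_total (fun i j => ∀ w ∈ W, p w i = p w j) (fun i j => ∀ w ∈ W, q w i = q w j)
    ⟨fun _ _ _ => rfl, fun h w hw => (h w hw).symm, fun h h' w hw => (h w hw).trans (h' w hw)⟩
    ⟨fun _ _ _ => rfl, fun h w hw => (h w hw).symm, fun h h' w hw => (h w hw).trans (h' w hw)⟩
    hRS with h | h
  · apply hstd
    left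
    have hv : ∀ w ∈ W, w.1 = 0 := by
      intro w hw
      have h3 := c12_ext_sum a i₀ ha w.1
      have h4 : ∀ i, Helper54.PT.ext a i₀ w.1 i = Helper54.PT.ext a i₀ w.1 i₀ := fun i => h i i₀ w hw
      simp only [h4] at h3
      rw [← sum_mul] at h3
      have h5 : Helper54.PT.ext a i₀ w.1 i₀ = 0 := (mul_eq_zero.1 h3).resolve_left hA
      funext j
      rw [← c12_ext_self a i₀ w.1 j, h4, h5, Pi.zero_apply]
    have h3 := hdim (LinearMap.fst _ _ _) LinearMap.fst_surjective hv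
    refine ⟨u₀.1, fun u => ?_⟩
    rw [hmem, h3, LinearMap.fst_apply, Prod.fst_sub, sub_eq_zero]
  · apply hstd
    right
    have hv : ∀ w ∈ W, w.2 = 0 := by
      intro w hw
      funext j
      have h3 : q w j.1 = q w i₀ := h j.1 i₀ w hw
      simp only [hq, c13_z, dif_neg j.2, dif_pos, mul_zero] at h3
      exact (mul_eq_zero.1 h3).resolve_left (inv_ne_zero (c12_cast_ne (ha j.1)))
    have h3 := hdim (LinearMap.snd _ _ _) LinearMap.snd_surjective hv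
    refine ⟨u₀.2, fun u => ?_⟩
    rw [hmem, h3, LinearMap.snd_apply, Prod.snd_sub, sub_eq_zero]

end Algebra

end Pool.Agent.Helper54.PT
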