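import Pool.Agent.Helper54.PT.DefsE
import Pool.Agent.Helper42.TW.C13

/-! # D1: genericity of the torsion classes for `ℓ = 2` (MP_1d384c_nt) -/

set_option autoImplicit false

namespace Pool.Agent.Helper42.TW

open Finset Pool.Agent.Helper54.PT

/-- Combinatorics of pairs in an abelian group of exponent two. -/
theorem d1_comb {R ι : Type} [CommRing R] (h2 : (2 : R) = 0) (f g : ι → R) (i₀ : ι)
    (hf : f i₀ = 0) (hg : g i₀ = 0)
    (hT : ∀ i m, f i = f m ∨ g i = g m ∨ f i + g i = f m + g m) :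
    (∀ i, f i = 0) ∨ (∀ i, g i = 0) ∨ (∀ i, f i = g i) ∨
      ∃ h, ∀ i, (f i = 0 ∨ f i = h) ∧ (g i = 0 ∨ g i = h) := by
  by_contra hcon
  push Not at hcon
  obtain ⟨⟨i, hi⟩, ⟨m, hm⟩, ⟨l, hl⟩, h4⟩ := hcon
  have ti := hT i i₀
  have tm := hT m i₀
  have tl := hT l i₀
  rw [hf, hg] at ti tm tl
  rcases ti with h | h | h
  · exact hi h
  · -- `f i ≠ 0`, `g i = 0`
    obtain ⟨k, hk⟩ := h4 (f i)
    have t1 := hT k i₀
    have t2 := hT k i
    have t3 := hT k m
    have t4 := hT i m
    rw [hf, hg] at t1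
    grind
  · obtain ⟨k, hk⟩ := h4 (f i)
    have t1 := hT k i₀
    have t2 := hT k i
    have t3 := hT k l
    have t4 := hT i l
    rw [hf, hg] at t1
    grind

end Pool.Agent.Helper42.TW

namespace Pool.Agent.Helper54.PT

open Finset Module Pool.Agent.Helper42.TW

section Twist

variable {ι : Type} [Fintype ι] [DecidableEq ι] (a : ι → ℕ) (i₀ : ι)
  {σ : Type} [Fintype σ] [DecidableEq σ] (i₁ i₂ : σ → ι) (lgl : ι → ι → ZMod 2)
  (dR : σ → ZMod 2) (sR : σ → σ → ZMod 2) (X : PData 2 σ) (D : Finset X.P)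

theorem d1_one {n : ℕ} (h : ¬ 2 ∣ n) : (n : ZMod 2) = 1 := by
  have := c12_cast_ne (ℓ := 2) h
  revert this
  generalize (n : ZMod 2) = x
  revert x
  decide

/-- D1: genericity for `ℓ = 2` (uses B13 `coset_of_unl`) -/
theorem generic2_tau (ha : ∀ i, ¬ 2 ∣ a i) (hs : ¬ 2 ∣ ∑ i, a i) (hι : 3 ≤ Fintype.card ι)
    (hne : ∀ r, i₁ r ≠ i₂ r) (hpair : ∀ i j, i ≠ j → ∃ r, s(i₁ r, i₂ r) = s(i, j))
    (b13 : ∀ 𝒰 : Finset (({j : ι // j ≠ i₀} → ZMod 2) × ({j : ι // j ≠ i₀} → ZMod 2)),
      Unl PhiJ 𝒰 → 𝒰.card = 2 ^ Fintype.card {j : ι // j ≠ i₀} →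
      ∃ (u₀ : ({j : ι // j ≠ i₀} → ZMod 2) × ({j : ι // j ≠ i₀} → ZMod 2))
        (W : Submodule (ZMod 2) (({j : ι // j ≠ i₀} → ZMod 2) × ({j : ι // j ≠ i₀} → ZMod 2))),
        finrank (ZMod 2) W = Fintype.card {j : ι // j ≠ i₀} ∧ ∀ u, u ∈ 𝒰 ↔ u - u₀ ∈ W) :
    Generic2 (tau a i₀ i₁ i₂ lgl) := by
  intro 𝒰 hU hcard hstd hstd3
  by_contra hcon
  push Not at hcon
  obtain ⟨u₀, W, hW, hmem⟩ := b13 𝒰 hU hcard
  have ha1 : ∀ i, (a i : ZMod 2) = 1 := fun i => d1_one (ha i)
  have hA : asum 2 a = 1 := by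
    have := d1_one hs
    push_cast at this
    exact this
  -- the polar form
  have hB : ∀ r, ∀ w ∈ W, ∀ w' ∈ W, ∑ j, (w.2 j * tau a i₀ i₁ i₂ lgl w'.1 j (some r) +
      w'.2 j * tau a i₀ i₁ i₂ lgl w.1 j (some r)) = 0 := by
    intro r w hw w' hw'
    obtain ⟨η, ω, c, hc⟩ := hcon r
    have hF : ∀ u ∈ 𝒰, ∑ j, (u.2 j * tau a i₀ i₁ i₂ lgl u.1 j (some r) -
        (η j * u.1 j + ω j * u.2 j)) = c := by
      intro u hu
      rw [sum_sub_distrib, hc u hu]
      ring
    have m0 : u₀ ∈ 𝒰 := (hmem _).2 (by rw [sub_self]; exact W.zero_mem)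
    have m1 : u₀ + w ∈ 𝒰 := (hmem _).2 (by rw [add_sub_cancel_left]; exact hw)
    have m2 : u₀ + w' ∈ 𝒰 := (hmem _).2 (by rw [add_sub_cancel_left]; exact hw')
    have m3 : u₀ + (w + w') ∈ 𝒰 := (hmem _).2 (by
      rw [add_sub_cancel_left]; exact W.add_mem hw hw')
    calc ∑ j, (w.2 j * tau a i₀ i₁ i₂ lgl w'.1 j (some r) +
      w'.2 j * tau a i₀ i₁ i₂ lgl w.1 j (some r)) =
          ∑ j, (((((u₀ + (w + w')).2 j * tau a i₀ i₁ i₂ lgl (u₀ + (w + w')).1 j (some r) -
            (η j * (u₀ + (w + w')).1 j + ω j * (u₀ + (w + w')).2 j)) -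
            ((u₀ + w).2 j * tau a i₀ i₁ i₂ lgl (u₀ + w).1 j (some r) -
            (η j * (u₀ + w).1 j + ω j * (u₀ + w).2 j))) -
            ((u₀ + w').2 j * tau a i₀ i₁ i₂ lgl (u₀ + w').1 j (some r) -
            (η j * (u₀ + w').1 j + ω j * (u₀ + w').2 j))) +
            (u₀.2 j * tau a i₀ i₁ i₂ lgl u₀.1 j (some r) - (η j * u₀.1 j + ω j * u₀.2 j))) := by
            refine sum_congr rfl fun j _ => ?_
            simp only [Prod.fst_add, Prod.snd_add, map_add, Pi.add_apply]
            ring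
        _ = 0 := by
            rw [sum_add_distrib, sum_sub_distrib, sum_sub_distrib, hF _ m0, hF _ m1, hF _ m2,
              hF _ m3]
            ring
  set p : (({j : ι // j ≠ i₀} → ZMod 2) × ({j : ι // j ≠ i₀} → ZMod 2)) → ι → ZMod 2 :=
    fun w i => Helper54.PT.ext a i₀ w.1 i with hp
  set q : (({j : ι // j ≠ i₀} → ZMod 2) × ({j : ι // j ≠ i₀} → ZMod 2)) → ι → ZMod 2 :=
    fun w i => c13_z i₀ w.2 i with hq
  have padd : ∀ x y i, p (x + y) i = p x i + p y i := by
    intro x y i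
    simp only [hp, Prod.fst_add, ext_add, Pi.add_apply]
  have qadd : ∀ x y i, q (x + y) i = q x i + q y i := by
    intro x y i
    simp only [hq, Prod.snd_add, c13_z, Pi.add_apply]
    split_ifs <;> ring
  have hpq : ∀ i j, i ≠ j → ∀ w ∈ W, ∀ w' ∈ W, (p w' i - p w' j) * (q w i - q w j) +
      (p w i - p w j) * (q w' i - q w' j) = 0 := by
    have key : ∀ r, ∀ w ∈ W, ∀ w' ∈ W, (p w' (i₁ r) - p w' (i₂ r)) * (q w (i₁ r) - q w (i₂ r)) +
        (p w (i₁ r) - p w (i₂ r)) * (q w' (i₁ r) - q w' (i₂ r)) = 0 := by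
      intro r w hw w' hw'
      have h3 := hB r w hw w' hw'
      rw [sum_add_distrib, c13_quad a i₀ i₁ i₂ lgl r (hne r), c13_quad a i₀ i₁ i₂ lgl r (hne r),
        hA, ha1, ha1, inv_one, one_mul, one_mul, one_mul, one_mul, one_mul, one_mul] at h3
      exact h3
    intro i j hij w hw w' hw'
    obtain ⟨r, hr⟩ := hpair i j hij
    rcases Sym2.eq_iff.1 hr with ⟨h3, h4⟩ | ⟨h3, h4⟩
    · have := key r w hw w' hw'
      rwa [h3, h4] at this
    · have := key r w hw w' hw'
      rw [h3, h4] at this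
      linear_combination this
  have z2 : (2 : ZMod 2) = 0 := by decide
  -- the trichotomy
  have htri : ∀ i j, (∀ w ∈ W, p w i = p w j) ∨ (∀ w ∈ W, q w i = q w j) ∨
      ∀ w ∈ W, p w i - p w j = q w i - q w j := by
    intro i j
    by_cases hij : i = j
    · left
      intro w _
      rw [hij]
    · by_contra h
      push Not at h
      obtain ⟨⟨w1, hw1, h1⟩, ⟨w2, hw2, h2⟩, w3, hw3, h3⟩ := h
      have zz : ∀ x : ZMod 2, x = 0 ∨ x = 1 := by decide
      have e1 : p w1 i - p w1 j = 1 := (zz _).resolve_left (sub_ne_zero.2 h1)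
      have e2 : q w2 i - q w2 j = 1 := (zz _).resolve_left (sub_ne_zero.2 h2)
      have g1 := hpq i j hij w1 hw1 w2 hw2
      have g2 := hpq i j hij w1 hw1 w3 hw3
      have g3 := hpq i j hij w2 hw2 w3 hw3
      rw [e1, e2] at g1
      rw [e1] at g2
      rw [e2] at g3
      have e3 : q w1 i - q w1 j = 1 := by
        rcases zz (q w1 i - q w1 j) with h4 | h4
        · rw [h4] at g1
          exact absurd g1 (by simp)
        · exact h4
      rw [e3] at g2
      apply h3
      linear_combination g2 - (q w3 i - q w3 j) * z2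
  have hcomb := d1_comb (R := W → ZMod 2) (funext fun _ => z2) (fun i w => p w i - p w i₀)
    (fun i w => q w i) i₀ (by funext w; simp) (by
      funext w
      simp only [hq, c13_z, dif_pos, Pi.zero_apply]) (by
      intro i m
      rcases htri i m with h | h | h
      · left
        funext w
        have := h w w.2
        change p w i - p w i₀ = p w m - p w i₀
        rw [this]
      · right; left
        funext w
        exact h w w.2
      · right; right
        funext w
        have := h w w.2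
        simp only [Pi.add_apply]
        linear_combination this + (q w m - q w i) * z2 + (q w i - q w m) * z2 + (q w i - q w m) * z2)
  have hdim : ∀ f : (({j : ι // j ≠ i₀} → ZMod 2) × ({j : ι // j ≠ i₀} → ZMod 2)) →ₗ[ZMod 2]
      ({j : ι // j ≠ i₀} → ZMod 2), Function.Surjective f → (∀ w ∈ W, f w = 0) →
      ∀ w, w ∈ W ↔ f w = 0 := by
    intro f hf hfW
    have h3 : W ≤ LinearMap.ker f := fun w hw => LinearMap.mem_ker.2 (hfW w hw)
    have h4 := LinearMap.finrank_range_add_finrank_ker f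
    rw [LinearMap.range_eq_top.2 hf, finrank_top, finrank_prod, finrank_fintype_fun_eq_card] at h4
    have h5 : W = LinearMap.ker f := Submodule.eq_of_le_of_finrank_eq h3 (by rw [hW]; omega)
    intro w
    rw [h5, LinearMap.mem_ker]
  have hext0 : ∀ v : {j : ι // j ≠ i₀} → ZMod 2, Helper54.PT.ext a i₀ v i₀ = ∑ j, v j := by
    intro v
    unfold Helper54.PT.ext
    rw [dif_pos rfl, ha1, inv_one, one_mul]
    simp only [ha1, one_mul]
    linear_combination -(∑ j, v j) * z2
  rcases hcomb with h | h | h | ⟨h, hh⟩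
  · apply hstd
    left
    have hv : ∀ w ∈ W, w.1 = 0 := by
      intro w hw
      have h3 := c12_ext_sum a i₀ ha w.1
      have h4 : ∀ i, Helper54.PT.ext a i₀ w.1 i = Helper54.PT.ext a i₀ w.1 i₀ := fun i =>
        sub_eq_zero.1 (congrFun (h i) ⟨w, hw⟩)
      simp only [h4] at h3
      rw [← sum_mul] at h3
      have h5 : Helper54.PT.ext a i₀ w.1 i₀ = 0 := by
        have h6 : asum 2 a * Helper54.PT.ext a i₀ w.1 i₀ = 0 := h3
        rwa [hA, one_mul] at h6
      funext j
      rw [← c12_ext_self a i₀ w.1 j, h4, h5, Pi.zero_apply]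
    have h3 := hdim (LinearMap.fst _ _ _) LinearMap.fst_surjective hv
    refine ⟨u₀.1, fun u => ?_⟩
    rw [hmem, h3, LinearMap.fst_apply, Prod.fst_sub, sub_eq_zero]
  · apply hstd
    right
    have hv : ∀ w ∈ W, w.2 = 0 := by
      intro w hw
      funext j
      have h3 : q w j.1 = 0 := congrFun (h j.1) ⟨w, hw⟩
      simp only [hq, c13_z, dif_neg j.2] at h3
      exact h3
    have h3 := hdim (LinearMap.snd _ _ _) LinearMap.snd_surjective hv
    refine ⟨u₀.2, fun u => ?_⟩
    rw [hmem, h3, LinearMap.snd_apply, Prod.snd_sub, sub_eq_zero]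
  · apply hstd3
    let L : ({j : ι // j ≠ i₀} → ZMod 2) →ₗ[ZMod 2] ({j : ι // j ≠ i₀} → ZMod 2) :=
      { toFun := fun v j => v j + ∑ i, v i
        map_add' := fun x y => by
          funext j
          simp only [Pi.add_apply, sum_add_distrib]
          ring
        map_smul' := fun c x => by
          funext j
          simp only [Pi.smul_apply, smul_eq_mul, RingHom.id_apply, mul_add, mul_sum] }
    have hLa : ∀ v j, L v j = v j + ∑ i, v i := fun _ _ => rfl
    let f : (({j : ι // j ≠ i₀} → ZMod 2) × ({j : ι // j ≠ i₀} → ZMod 2)) →ₗ[ZMod 2]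
      ({j : ι // j ≠ i₀} → ZMod 2) := LinearMap.snd _ _ _ - L.comp (LinearMap.fst _ _ _)
    have hfa : ∀ w, f w = w.2 - L w.1 := fun _ => rfl
    have hfs : Function.Surjective f := fun v => ⟨(0, v), by rw [hfa]; simp⟩
    have hv : ∀ w ∈ W, f w = 0 := by
      intro w hw
      rw [hfa]
      funext j
      have h3 : p w j.1 - p w i₀ = q w j.1 := congrFun (h j.1) ⟨w, hw⟩
      simp only [hq, hp, c13_z, dif_neg j.2, c12_ext_self, hext0] at h3
      rw [Pi.sub_apply, hLa, Pi.zero_apply, ← h3]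
      linear_combination -(∑ i, w.1 i) * z2
    have h3 := hdim f hfs hv
    refine ⟨fun j => u₀.2 j - (u₀.1 j + ∑ i, u₀.1 i), fun u => ?_⟩
    rw [hmem, h3, hfa, funext_iff]
    refine forall_congr' fun j => ?_
    rw [Pi.sub_apply, hLa, Pi.zero_apply, Prod.fst_sub, Prod.snd_sub]
    simp only [Pi.sub_apply, sum_sub_distrib]
    constructor
    · intro h4
      linear_combination h4
    · intro h4
      linear_combination h4
  · -- dimension at most one
    have hz : ∀ w : W, (∀ i, p w i = p w i₀) → (∀ i, q w i = 0) → w = 0 := by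
      intro w hf0 hg0
      have h5 : Helper54.PT.ext a i₀ w.1.1 i₀ = 0 := by
        have h3 := c12_ext_sum a i₀ ha w.1.1
        have h4 : ∀ i, Helper54.PT.ext a i₀ w.1.1 i = Helper54.PT.ext a i₀ w.1.1 i₀ := hf0
        simp only [h4] at h3
        rw [← sum_mul] at h3
        have h6 : asum 2 a * Helper54.PT.ext a i₀ w.1.1 i₀ = 0 := h3
        rwa [hA, one_mul] at h6
      refine Subtype.ext (Prod.ext ?_ ?_)
      · funext j
        have h6 : Helper54.PT.ext a i₀ w.1.1 j.1 = Helper54.PT.ext a i₀ w.1.1 i₀ := hf0 j.1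
        rw [← c12_ext_self a i₀ w.1.1 j, h6, h5]
        rfl
      · funext j
        have h6 := hg0 j.1
        simp only [hq, c13_z, dif_neg j.2] at h6
        rw [h6]
        rfl
    have hadd : ∀ x y : W, h x = h y → x = y := by
      intro x y hxy
      have e1 : ∀ i, p x i = p (x - y : W) i + p y i := by
        intro i
        rw [← padd]
        congr 1
        simp
      have e2 : ∀ i, q x i = q (x - y : W) i + q y i := by
        intro i
        rw [← qadd]
        congr 1
        simp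
      refine sub_eq_zero.1 (hz (x - y) (fun i => ?_) (fun i => ?_))
      · have e3 := e1 i
        have e4 := e1 i₀
        have e5 : p x i - p x i₀ = p y i - p y i₀ := by
          rcases (hh i).1 with h3 | h3
          · exact (congrFun h3 x).trans (congrFun h3 y).symm
          · exact (congrFun h3 x).trans (hxy.trans (congrFun h3 y).symm)
        linear_combination e5 - e3 + e4
      · have e3 := e2 i
        have e5 : q x i = q y i := by
          rcases (hh i).2 with h3 | h3
          · exact (congrFun h3 x).trans (congrFun h3 y).symm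
          · exact (congrFun h3 x).trans (hxy.trans (congrFun h3 y).symm)
        linear_combination e5 - e3
    have h6 : Nat.card W ≤ Nat.card (ZMod 2) :=
      Nat.card_le_card_of_injective h hadd
    have h7 : Nat.card W = 2 ^ Fintype.card {j : ι // j ≠ i₀} := by
      rw [Module.natCard_eq_pow_finrank (K := ZMod 2), hW, Nat.card_zmod]
    have h8 : 2 ≤ Fintype.card {j : ι // j ≠ i₀} := by
      rw [Fintype.card_subtype_compl, Fintype.card_subtype_eq]
      omega
    rw [h7, Nat.card_zmod] at h6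
    have h9 : 2 ^ 2 ≤ 2 ^ Fintype.card {j : ι // j ≠ i₀} := Nat.pow_le_pow_right (by norm_num) h8
    omega

end Twist

end Pool.Agent.Helper54.PT
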