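import Pool.Agent.Helper54.PT.DefsE
import Pool.Agent.Helper42.TW.D1

/-! # D6c: the global elements form a maximal totally singular subspace (MP_1d384c_nt) -/

set_option autoImplicit false

namespace Pool.Agent.Helper42.TW

open Finset Pool.Agent.Helper54.PT

/-- A symmetric sum with zero diagonal vanishes in characteristic two. -/
theorem d6c_symm {α : Type} [Fintype α] [DecidableEq α] (G : α → α → ZMod 2)
    (hG : ∀ x y, x ≠ y → G x y = G y x) :
    ∑ x, ∑ y, (if y = x then 0 else G x y) = 0 := by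
  rw [← Finset.sum_product']
  refine Finset.sum_involution (fun z _ => (z.2, z.1)) ?_ ?_ ?_ ?_
  · rintro ⟨x, y⟩ _
    by_cases h : y = x
    · simp [h]
    · simp only [if_neg h, if_neg (Ne.symm h)]
      rw [hG x y (Ne.symm h)]
      exact CharTwo.add_self_eq_zero _
  · rintro ⟨x, y⟩ _ h1 h2
    apply h1
    have h3 : y = x := congrArg Prod.fst h2
    simp [h3]
  · intro _ _
    simp
  · rintro ⟨x, y⟩ _
    rfl

/-- Sum over the pairs through `i`. -/
theorem d6c_pair {ι σ : Type} [Fintype ι] [DecidableEq ι] [Fintype σ] [DecidableEq σ]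
    {i₁ i₂ : σ → ι} (hne : ∀ r, i₁ r ≠ i₂ r) (F : σ → ZMod 2) (i : ι) :
    ∑ m ∈ univ.erase i, ∑ r ∈ univ.filter (fun r => s(i₁ r, i₂ r) = s(i, m)), F r =
      ∑ r, F r * ((if i = i₁ r then 1 else 0) + if i = i₂ r then 1 else 0) := by
  simp only [sum_filter]
  rw [sum_comm]
  refine sum_congr rfl fun r _ => ?_
  by_cases h1 : i = i₁ r
  · have h2 : i ≠ i₂ r := fun h => hne r (h1.symm.trans h)
    rw [if_pos h1, if_neg h2, add_zero, mul_one,
      sum_eq_single_of_mem (i₂ r) (mem_erase.2 ⟨h2.symm, mem_univ _⟩)]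
    · rw [← h1, if_pos rfl]
    · intro m hm hm2
      rw [if_neg]
      intro h
      rcases Sym2.eq_iff.1 h with ⟨_, h4⟩ | ⟨_, h4⟩
      · exact hm2 h4.symm
      · exact h2 h4.symm
  · by_cases h2 : i = i₂ r
    · rw [if_neg h1, if_pos h2, zero_add, mul_one,
        sum_eq_single_of_mem (i₁ r) (mem_erase.2 ⟨Ne.symm h1, mem_univ _⟩)]
      · rw [← h2, if_pos Sym2.eq_swap]
      · intro m hm hm2
        rw [if_neg]
        intro h
        rcases Sym2.eq_iff.1 h with ⟨h4, _⟩ | ⟨h4, _⟩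
        · exact h1 h4.symm
        · exact hm2 h4.symm
    · rw [if_neg h1, if_neg h2, add_zero, mul_zero]
      refine sum_eq_zero fun m _ => ?_
      rw [if_neg]
      intro h
      rcases Sym2.eq_iff.1 h with ⟨h4, _⟩ | ⟨_, h4⟩
      · exact h1 h4.symm
      · exact h2 h4.symm

/-- The extension as a linear map. -/
noncomputable def d6c_ext {ι : Type} [Fintype ι] [DecidableEq ι] (a : ι → ℕ) (i₀ : ι) (i : ι) :
    ({j : ι // j ≠ i₀} → ZMod 2) →ₗ[ZMod 2] ZMod 2 where
  toFun v := Helper54.PT.ext a i₀ v i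
  map_add' x y := by rw [ext_add, Pi.add_apply]
  map_smul' c x := by
    unfold Helper54.PT.ext
    simp only [Pi.smul_apply, smul_eq_mul, RingHom.id_apply]
    split_ifs
    · have h1 : ∑ j : {j : ι // j ≠ i₀}, (a j.1 : ZMod 2) * (c * x j) =
          c * ∑ j : {j : ι // j ≠ i₀}, (a j.1 : ZMod 2) * x j := by
        rw [mul_sum]
        exact sum_congr rfl fun j _ => by ring
      rw [h1]
      ring
    · rfl

end Pool.Agent.Helper42.TW

namespace Pool.Agent.Helper54.PT

open Finset Module Pool.Agent.Helper42.TW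

section Twist

variable {ι : Type} [Fintype ι] [DecidableEq ι] (a : ι → ℕ) (i₀ : ι)
  {σ : Type} [Fintype σ] [DecidableEq σ] (i₁ i₂ : σ → ι) (lgl : ι → ι → ZMod 2)
  (dR : σ → ZMod 2) (sR : σ → σ → ZMod 2) (X : PData 2 σ) (D : Finset X.P)

/-- D6c: the global elements form a maximal totally singular subspace -/
theorem qQ_LW (ha : ∀ i, ¬ 2 ∣ a i) (hs : ¬ 2 ∣ ∑ i, a i) (hne : ∀ r, i₁ r ≠ i₂ r)
    (hsym : ∀ i m, lgl i m = lgl m i) (hsR : ∀ r r', r ≠ r' → sR r r' = sR r' r) (N : ZMod 2)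
    (hdeg : ∀ i m, i ≠ m → ∑ r ∈ univ.filter (fun r => s(i₁ r, i₂ r) = s(i, m)), dR r = N)
    (x : QV i₀ X D) (hx : x ∈ LW i₀ dR sR X D) : qQ a i₀ i₁ i₂ lgl dR sR X D x = 0 := by
  have hx' : x.2 = zZ i₀ dR sR X D x.1 := hx
  have z2 : (2 : ZMod 2) = 0 := by decide
  unfold qQ
  rw [sum_comm]
  refine sum_eq_zero fun i _ => ?_
  set P : Pl X D → ZMod 2 := fun t => d6c_ext a i₀ i (x.1 t) with hP
  have hPe : ∀ t, Helper54.PT.ext a i₀ (x.1 t) i = P t := fun _ => rfl
  have hZr : ∀ r, Helper54.PT.ext a i₀ (x.2 (Sum.inl (some r))) i =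
      ∑ r' ∈ univ.erase r, P (Sum.inl (some r')) * sR r r' + P (Sum.inl none) * dR r +
        ∑ p : D, X.xx p.1 (some r) * P (Sum.inr p) := by
    intro r
    have h1 : x.2 (Sum.inl (some r)) = ∑ r' ∈ univ.erase r, sR r r' • x.1 (Sum.inl (some r')) +
        dR r • x.1 (Sum.inl none) + ∑ p : D, X.xx p.1 (some r) • x.1 (Sum.inr p) := by
      rw [hx']
      funext j
      simp only [zZ, Pi.add_apply, Finset.sum_apply, Pi.smul_apply, smul_eq_mul]
      congr 1
      congr 1
      · exact sum_congr rfl fun _ _ => mul_comm _ _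
      · exact mul_comm _ _
    change d6c_ext a i₀ i (x.2 (Sum.inl (some r))) = _
    rw [h1, map_add, map_add, map_sum, map_sum, map_smul]
    simp only [map_smul, smul_eq_mul]
    congr 1
    congr 1
    · exact sum_congr rfl fun _ _ => mul_comm _ _
    · exact mul_comm _ _
  have hZ0 : Helper54.PT.ext a i₀ (x.2 (Sum.inl none)) i =
      ∑ r, dR r * P (Sum.inl (some r)) + ∑ p : D, X.xx p.1 none * P (Sum.inr p) := by
    have h1 : x.2 (Sum.inl none) = ∑ r, dR r • x.1 (Sum.inl (some r)) +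
        ∑ p : D, X.xx p.1 none • x.1 (Sum.inr p) := by
      rw [hx']
      funext j
      simp only [zZ, Pi.add_apply, Finset.sum_apply, Pi.smul_apply, smul_eq_mul]
    change d6c_ext a i₀ i (x.2 (Sum.inl none)) = _
    rw [h1, map_add, map_sum, map_sum]
    simp only [map_smul, smul_eq_mul]
    rfl
  have hZp : ∀ p, Helper54.PT.ext a i₀ (x.2 (Sum.inr p)) i =
      ∑ s : Option σ, P (Sum.inl s) * X.xx p.1 s +
        ∑ p' : D, (if p' = p then 0 else P (Sum.inr p') * X.sym p'.1 p.1) := by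
    intro p
    have h1 : x.2 (Sum.inr p) = ∑ s : Option σ, X.xx p.1 s • x.1 (Sum.inl s) +
        ∑ p' : D, (if p' = p then 0 else X.sym p'.1 p.1) • x.1 (Sum.inr p') := by
      rw [hx']
      funext j
      simp only [zZ, Pi.add_apply, Finset.sum_apply, Pi.smul_apply, smul_eq_mul]
      congr 1
      · exact sum_congr rfl fun _ _ => mul_comm _ _
      · refine sum_congr rfl fun p' _ => ?_
        split_ifs
        · rw [zero_mul]
        · exact mul_comm _ _
    change d6c_ext a i₀ i (x.2 (Sum.inr p)) = _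
    rw [h1, map_add, map_sum, map_sum]
    simp only [map_smul, smul_eq_mul]
    congr 1
    · exact sum_congr rfl fun _ _ => mul_comm _ _
    · refine sum_congr rfl fun p' _ => ?_
      split_ifs
      · rw [zero_mul]
      · exact mul_comm _ _
  set x0 : ZMod 2 := P (Sum.inl none) with hx0
  set xr : σ → ZMod 2 := fun r => P (Sum.inl (some r)) with hxr
  set xp : D → ZMod 2 := fun p => P (Sum.inr p) with hxp
  set c0 : ZMod 2 := ∑ m ∈ univ.erase i, lgl i m with hc0
  set cr : σ → ZMod 2 := fun r => (if i = i₁ r then 1 else 0) + if i = i₂ r then 1 else 0 with hcr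
  have hcxr : ∀ r, cx i₁ i₂ lgl dR sR X D (Sum.inl (some r)) i =
      ∑ r', (if r' = r then 0 else sR r r' * cr r') + dR r * c0 := by
    intro r
    have h1 : cx i₁ i₂ lgl dR sR X D (Sum.inl (some r)) i =
      ∑ m ∈ univ.erase i, lam i₁ i₂ lgl dR sR r i m := rfl
    rw [h1]
    unfold lam
    rw [sum_add_distrib, ← mul_sum]
    congr 1
    have h2 := d6c_pair hne (fun r' => if r' = r then 0 else sR r r') i
    have h3 : ∀ m, ∑ r' ∈ univ.filter (fun r' => r' ≠ r ∧ s(i₁ r', i₂ r') = s(i, m)), sR r r' =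
        ∑ r' ∈ univ.filter (fun r' => s(i₁ r', i₂ r') = s(i, m)),
          (if r' = r then 0 else sR r r') := by
      intro m
      rw [sum_filter, sum_filter]
      refine sum_congr rfl fun r' _ => ?_
      by_cases h4 : r' = r
      · simp [h4]
      · simp [h4]
    simp only [h3]
    rw [h2]
    refine sum_congr rfl fun r' _ => ?_
    by_cases h : r' = r
    · rw [if_pos h, if_pos h, zero_mul]
    · rw [if_neg h, if_neg h]
  have hcxp : ∀ p : D, cx i₁ i₂ lgl dR sR X D (Sum.inr p) i =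
      ∑ r, X.xx p.1 (some r) * cr r + X.xx p.1 none * c0 := by
    intro p
    have h1 : cx i₁ i₂ lgl dR sR X D (Sum.inr p) i =
      ∑ m ∈ univ.erase i, gP i₁ i₂ lgl X p.1 i m := rfl
    rw [h1]
    unfold gP
    rw [sum_add_distrib, ← mul_sum, d6c_pair hne]
  have hdr : ∑ r, dR r * cr r = 0 := by
    rw [← d6c_pair hne dR i]
    have h1 : ∑ m ∈ univ.erase i, ∑ r ∈ univ.filter (fun r => s(i₁ r, i₂ r) = s(i, m)), dR r =
        ∑ m ∈ univ.erase i, N := sum_congr rfl fun m hm => hdeg i m (mem_erase.1 hm).1.symm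
    rw [h1, sum_const, card_erase_of_mem (mem_univ _), card_univ, nsmul_eq_mul]
    have h2 : ((Fintype.card ι : ℕ) : ZMod 2) = 1 := by
      have h3 := d1_one hs
      push_cast at h3
      have h4 : ∀ j, (a j : ZMod 2) = 1 := fun j => d1_one (ha j)
      simp only [h4] at h3
      rw [sum_const, nsmul_eq_mul, mul_one, card_univ] at h3
      exact h3
    have h3 : 1 ≤ Fintype.card ι := Fintype.card_pos_iff.2 ⟨i⟩
    rw [Nat.cast_sub h3, h2]
    simp
  have hS1 : ∑ r, ∑ r', (if r' = r then 0 else xr r * xr r' * sR r r') = 0 :=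
    d6c_symm (fun r r' => xr r * xr r' * sR r r') fun r r' h => by
      rw [hsR r r' h]
      ring
  have hS2 : ∑ p : D, ∑ p' : D, (if p' = p then 0 else xp p * xp p' * X.sym p'.1 p.1) = 0 :=
    d6c_symm (fun p p' : D => xp p * xp p' * X.sym p'.1 p.1) fun p p' h => by
      rw [X.sym_comm p'.1 p.1 fun h2 => h (Subtype.ext h2).symm]
      ring
  have herase : ∀ (r : σ) (G : σ → ZMod 2), ∑ r' ∈ univ.erase r, G r' =
      ∑ r', (if r' = r then 0 else G r') := by
    intro r G
    rw [← Finset.add_sum_erase univ (fun r' => if r' = r then 0 else G r') (mem_univ r), if_pos rfl,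
      zero_add]
    refine sum_congr rfl fun r' hr' => ?_
    rw [if_neg (mem_erase.1 hr').1]
  -- the sum over the places
  rw [Fintype.sum_sum_type, Fintype.sum_option]
  simp only [hPe, hZr, hZ0, hZp, hcxr, hcxp, herase, Fintype.sum_option]
  have hcx0 : cx i₁ i₂ lgl dR sR X D (Sum.inl none) i = 0 := rfl
  have hcz0 : cz i₁ i₂ lgl X D (Sum.inl none) i = c0 := rfl
  have hczr : ∀ r, cz i₁ i₂ lgl X D (Sum.inl (some r)) i = cr r := fun _ => rfl
  have hczp : ∀ p, cz i₁ i₂ lgl X D (Sum.inr p) i = 0 := fun _ => rfl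
  simp only [hcx0, hcz0, hczr, hczp, mul_zero, add_zero]
  -- expand
  have eS1 : ∑ r, xr r * ∑ r', (if r' = r then 0 else xr r' * sR r r') = 0 := by
    refine Eq.trans ?_ hS1
    refine sum_congr rfl fun r _ => ?_
    rw [mul_sum]
    refine sum_congr rfl fun r' _ => ?_
    split_ifs
    · rw [mul_zero]
    · ring
  have eS2 : ∑ p : D, xp p * ∑ p' : D, (if p' = p then 0 else xp p' * X.sym p'.1 p.1) = 0 := by
    refine Eq.trans ?_ hS2
    refine sum_congr rfl fun r _ => ?_
    rw [mul_sum]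
    refine sum_congr rfl fun r' _ => ?_
    split_ifs
    · rw [mul_zero]
    · ring
  have eE : ∑ r, (∑ r', (if r' = r then 0 else xr r' * sR r r')) * cr r =
      ∑ r, xr r * ∑ r', (if r' = r then 0 else sR r r' * cr r') := by
    simp only [sum_mul, mul_sum]
    rw [sum_comm]
    refine sum_congr rfl fun r _ => sum_congr rfl fun r' _ => ?_
    by_cases h : r' = r
    · simp [h]
    · rw [if_neg h, if_neg (Ne.symm h), hsR r r' (Ne.symm h)]
      ring
  have eC : ∑ p : D, xp p * ∑ r, xr r * X.xx p.1 (some r) =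
      ∑ r, xr r * ∑ p : D, X.xx p.1 (some r) * xp p := by
    simp only [mul_sum]
    rw [sum_comm]
    exact sum_congr rfl fun r _ => sum_congr rfl fun p _ => by ring
  have eH : ∑ r, (∑ p : D, X.xx p.1 (some r) * xp p) * cr r =
      ∑ p : D, xp p * ∑ r, X.xx p.1 (some r) * cr r := by
    simp only [mul_sum, sum_mul]
    rw [sum_comm]
    exact sum_congr rfl fun r _ => sum_congr rfl fun p _ => by ring
  have eA : ∑ r, xr r * (x0 * dR r) = x0 * ∑ r, dR r * xr r := by
    rw [mul_sum]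
    exact sum_congr rfl fun r _ => by ring
  have eB : ∑ p : D, xp p * (x0 * X.xx p.1 none) = x0 * ∑ p : D, X.xx p.1 none * xp p := by
    rw [mul_sum]
    exact sum_congr rfl fun r _ => by ring
  have eF : ∑ r, xr r * (dR r * c0) = (∑ r, dR r * xr r) * c0 := by
    rw [sum_mul]
    exact sum_congr rfl fun r _ => by ring
  have eG : ∑ p : D, xp p * (X.xx p.1 none * c0) = (∑ p : D, X.xx p.1 none * xp p) * c0 := by
    rw [sum_mul]
    exact sum_congr rfl fun r _ => by ring
  have eK : ∑ r, x0 * dR r * cr r = 0 := by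
    have : ∀ r, x0 * dR r * cr r = x0 * (dR r * cr r) := fun r => by ring
    simp only [this]
    rw [← mul_sum, hdr, mul_zero]
  simp only [mul_add, add_mul, sum_add_distrib]
  rw [eS1, eS2, eE, eC, eH, eA, eB, eF, eG, eK]
  have key : ∀ A B C E H c x : ZMod 2, x * A + x * B + (A * c + B * c) +
      (0 + x * A + C + (E + A * c) + (E + 0 + H)) + (x * B + C + 0 + (H + B * c)) = 0 := by
    intro A B C E H c x
    linear_combination (x * A + x * B + A * c + B * c + C + E + H) * z2
  exact key _ _ _ _ _ _ _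

theorem finrank_LW : finrank (ZMod 2) (LW i₀ dR sR X D) =
    Fintype.card (Pl X D) * Fintype.card {j : ι // j ≠ i₀} := by
  let f : LW i₀ dR sR X D →ₗ[ZMod 2] (Pl X D → {j : ι // j ≠ i₀} → ZMod 2) :=
    (LinearMap.fst _ _ _).comp (LW i₀ dR sR X D).subtype
  have hf : Function.Bijective f := by
    constructor
    · rintro ⟨x, hx⟩ ⟨y, hy⟩ h
      have h1 : x.1 = y.1 := h
      have h2 : x.2 = zZ i₀ dR sR X D x.1 := hx
      have h3 : y.2 = zZ i₀ dR sR X D y.1 := hy
      exact Subtype.ext (Prod.ext h1 (by rw [h2, h3, h1]))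
    · intro v
      exact ⟨⟨(v, zZ i₀ dR sR X D v), rfl⟩, rfl⟩
  rw [(LinearEquiv.ofBijective f hf).finrank_eq, Module.finrank_pi_fintype]
  simp [Module.finrank_fintype_fun_eq_card]

end Twist

end Pool.Agent.Helper54.PT
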