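import Pool.Agent.Helper54.PT.DefsD

/-! # C12: the number of solutions of the local conditions (MP_1d384c_nt) -/

set_option autoImplicit false

namespace Pool.Agent.Helper42.TW

open Finset Pool.Agent.Helper54.PT

variable {ℓ : ℕ} [Fact ℓ.Prime] {ι : Type} [Fintype ι] [DecidableEq ι] (a : ι → ℕ) (i₀ : ι)

/-- The coefficient of `v c` in `ext v i`. -/
def c12_E (i : ι) (c : {j : ι // j ≠ i₀}) : ZMod ℓ :=
  if i = i₀ then -((a i₀ : ZMod ℓ)⁻¹ * (a c.1 : ZMod ℓ)) else if i = c.1 then 1 else 0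

theorem c12_ext_sub {y y' : {j : ι // j ≠ i₀} → ZMod ℓ} (c : {j : ι // j ≠ i₀})
    (h : ∀ j, j ≠ c → y j = y' j) (i : ι) :
    ext a i₀ y i - ext a i₀ y' i = (y c - y' c) * c12_E (ℓ := ℓ) a i₀ i c := by
  unfold Helper54.PT.ext c12_E
  by_cases hi : i = i₀
  · simp only [hi, dif_pos, if_true]
    have h1 : ∑ j : {j : ι // j ≠ i₀}, (a j.1 : ZMod ℓ) * y j -
        ∑ j : {j : ι // j ≠ i₀}, (a j.1 : ZMod ℓ) * y' j = (a c.1 : ZMod ℓ) * (y c - y' c) := by
      rw [← sum_sub_distrib, sum_eq_single c]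
      · ring
      · intro j _ hj
        rw [h j hj, sub_self]
      · intro hc
        exact absurd (mem_univ _) hc
    linear_combination (-(a i₀ : ZMod ℓ)⁻¹) * h1
  · simp only [dif_neg hi, if_neg hi]
    by_cases hc : i = c.1
    · have : (⟨i, hi⟩ : {j : ι // j ≠ i₀}) = c := Subtype.ext hc
      rw [this, if_pos hc, mul_one]
    · rw [if_neg hc, mul_zero, h ⟨i, hi⟩ fun h2 => hc (congrArg Subtype.val h2), sub_self]

theorem c12_cast_ne {n : ℕ} (h : ¬ ℓ ∣ n) : (n : ZMod ℓ) ≠ 0 := fun h0 =>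
  h ((ZMod.natCast_eq_zero_iff n ℓ).1 h0)

theorem c12_exists_c (ha : ∀ i, ¬ ℓ ∣ a i) (hs : ¬ ℓ ∣ ∑ i, a i) {i j : ι} (hij : i ≠ j) :
    ∃ c : {j : ι // j ≠ i₀}, c12_E (ℓ := ℓ) a i₀ i c - c12_E (ℓ := ℓ) a i₀ j c ≠ 0 := by
  -- the case `i = i₀`
  have key : ∀ j : ι, j ≠ i₀ →
      ∃ c : {j : ι // j ≠ i₀}, c12_E (ℓ := ℓ) a i₀ i₀ c - c12_E (ℓ := ℓ) a i₀ j c ≠ 0 := by
    intro j hj
    by_contra hcon
    push Not at hcon
    have h0 := c12_cast_ne (ha i₀)
    have h1 : ∀ c : {j : ι // j ≠ i₀}, (a c.1 : ZMod ℓ) = if j = c.1 then -(a i₀ : ZMod ℓ) else 0 := by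
      intro c
      have := hcon c
      unfold c12_E at this
      rw [if_pos rfl, if_neg hj] at this
      split_ifs at this ⊢ with h2
      · have h3 : (a i₀ : ZMod ℓ)⁻¹ * (a c.1 : ZMod ℓ) = -1 := by linear_combination -this
        field_simp at h3
        linear_combination h3
      · have h3 : (a i₀ : ZMod ℓ)⁻¹ * (a c.1 : ZMod ℓ) = 0 := by linear_combination -this
        exact (mul_eq_zero.1 h3).resolve_left (inv_ne_zero h0)
    apply c12_cast_ne hs
    push_cast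
    rw [← Finset.add_sum_erase univ _ (mem_univ i₀)]
    have h2 : ∑ x ∈ univ.erase i₀, (a x : ZMod ℓ) = -(a i₀ : ZMod ℓ) := by
      rw [sum_eq_single_of_mem j (mem_erase.2 ⟨hj, mem_univ _⟩)]
      · have := h1 ⟨j, hj⟩
        rwa [if_pos rfl] at this
      · intro b hb hbj
        have := h1 ⟨b, (mem_erase.1 hb).1⟩
        rwa [if_neg (Ne.symm hbj)] at this
    rw [h2]
    ring
  by_cases hi : i = i₀
  · subst hi
    exact key j hij.symm
  · by_cases hj : j = i₀
    · subst hj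
      obtain ⟨c, hc⟩ := key i hi
      exact ⟨c, fun h => hc (by linear_combination -h)⟩
    · refine ⟨⟨i, hi⟩, ?_⟩
      unfold c12_E
      rw [if_neg hi, if_neg hj, if_pos rfl, if_neg hij.symm, sub_zero]
      exact one_ne_zero

theorem c12_ext_self (v : {j : ι // j ≠ i₀} → ZMod ℓ) (j : {j : ι // j ≠ i₀}) :
    ext a i₀ v j.1 = v j := by
  unfold Helper54.PT.ext
  rw [dif_neg j.2]

theorem c12_ext_sum (ha : ∀ i, ¬ ℓ ∣ a i) (v : {j : ι // j ≠ i₀} → ZMod ℓ) :
    ∑ i, (a i : ZMod ℓ) * ext a i₀ v i = 0 := by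
  have h0 := c12_cast_ne (ha i₀)
  rw [← Finset.add_sum_erase univ _ (mem_univ i₀)]
  have h1 : ∑ x ∈ univ.erase i₀, (a x : ZMod ℓ) * ext a i₀ v x =
      ∑ j : {j : ι // j ≠ i₀}, (a j.1 : ZMod ℓ) * v j := by
    rw [Finset.sum_subtype (univ.erase i₀) (p := fun j => j ≠ i₀) (by simp)
      (fun x => (a x : ZMod ℓ) * ext a i₀ v x)]
    exact sum_congr rfl fun j _ => by rw [c12_ext_self a i₀ v j]
  rw [h1]
  unfold Helper54.PT.ext
  rw [dif_pos rfl]
  field_simp
  ring

/-- Two solutions of the support condition with the same value at `i` are equal. -/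
theorem c12_eq_of_supp (ha : ∀ i, ¬ ℓ ∣ a i) {i j : ι} (hij : i ≠ j)
    {v v' : {j : ι // j ≠ i₀} → ZMod ℓ} (h : ∀ m, m ≠ i → m ≠ j → ext a i₀ v m = 0)
    (h' : ∀ m, m ≠ i → m ≠ j → ext a i₀ v' m = 0) (he : ext a i₀ v i = ext a i₀ v' i) : v = v' := by
  have hs : ∀ w : {j : ι // j ≠ i₀} → ZMod ℓ, (∀ m, m ≠ i → m ≠ j → ext a i₀ w m = 0) →
      (a i : ZMod ℓ) * ext a i₀ w i + (a j : ZMod ℓ) * ext a i₀ w j = 0 := by
    intro w hw
    have h1 := c12_ext_sum a i₀ ha w
    rw [← Finset.add_sum_erase univ _ (mem_univ i), ← Finset.add_sum_erase (univ.erase i) _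
      (mem_erase.2 ⟨hij.symm, mem_univ _⟩), sum_eq_zero, add_zero] at h1
    · exact h1
    · intro m hm
      rw [hw m (mem_erase.1 (mem_erase.1 hm).2).1 (mem_erase.1 hm).1, mul_zero]
  have h2 : ext a i₀ v j = ext a i₀ v' j := by
    have h3 := hs v h
    have h4 := hs v' h'
    rw [he] at h3
    have h5 : (a j : ZMod ℓ) * ext a i₀ v j = (a j : ZMod ℓ) * ext a i₀ v' j := by
      linear_combination h3 - h4
    exact mul_left_cancel₀ (c12_cast_ne (ha j)) h5
  funext m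
  rw [← c12_ext_self a i₀ v m, ← c12_ext_self a i₀ v' m]
  by_cases hm : m.1 = i
  · rw [hm, he]
  · by_cases hm' : m.1 = j
    · rw [hm', h2]
    · rw [h _ hm hm', h' _ hm hm']

end Pool.Agent.Helper42.TW

namespace Pool.Agent.Helper54.PT

open Finset Pool.Agent.Helper42.TW

section Algebra

variable {ℓ : ℕ} [Fact ℓ.Prime] {ι : Type} [Fintype ι] [DecidableEq ι] (a : ι → ℕ) (i₀ : ι)
  {σ : Type} [Fintype σ] [DecidableEq σ] (i₁ i₂ : σ → ι) (lgl : ι → ι → ZMod ℓ)
  (dR : σ → ZMod ℓ) (sR : σ → σ → ZMod ℓ)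

open Classical in
/-- C12: the number of solutions -/
theorem card_HH (ha : ∀ i, ¬ ℓ ∣ a i) (hs : ¬ ℓ ∣ ∑ i, a i) (hne : ∀ r, i₁ r ≠ i₂ r)
    (N : ZMod ℓ) (κ : Option σ → ZMod ℓ) :
    (univ.filter fun x : (Option σ → {j : ι // j ≠ i₀} → ZMod ℓ) ×
      (Option σ → {j : ι // j ≠ i₀} → ZMod ℓ) => HH a i₀ i₁ i₂ lgl dR sR N x.1 x.2 κ).card ≤
        ℓ ^ (Fintype.card {j : ι // j ≠ i₀} * (Fintype.card σ + 1)) := by
  choose c hc using fun r => c12_exists_c (ℓ := ℓ) a i₀ ha hs (hne r)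
  let Ψ : (Option σ → {j : ι // j ≠ i₀} → ZMod ℓ) × (Option σ → {j : ι // j ≠ i₀} → ZMod ℓ) →
      (σ → {j : ι // j ≠ i₀} → ZMod ℓ) × ({j : ι // j ≠ i₀} → ZMod ℓ) := fun x =>
    (fun r j => if j = c r then ext a i₀ (x.1 (some r)) (i₁ r) else x.2 (some r) j,
      fun j => if κ none + N = 0 then x.1 none j else x.2 none j)
  have hcard : (univ : Finset ((σ → {j : ι // j ≠ i₀} → ZMod ℓ) ×
      ({j : ι // j ≠ i₀} → ZMod ℓ))).card =
      ℓ ^ (Fintype.card {j : ι // j ≠ i₀} * (Fintype.card σ + 1)) := by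
    rw [card_univ, Fintype.card_prod, Fintype.card_fun, Fintype.card_fun, ZMod.card, ← pow_mul,
      ← pow_add]
    rfl
  rw [← hcard]
  refine Finset.card_le_card_of_injOn Ψ (fun _ _ => mem_coe.2 (mem_univ _)) ?_
  rintro ⟨b, y⟩ hx ⟨b', y'⟩ hx' heq
  have hx1 : HH a i₀ i₁ i₂ lgl dR sR N b y κ := (mem_filter.1 (mem_coe.1 hx)).2
  have hx1' : HH a i₀ i₁ i₂ lgl dR sR N b' y' κ := (mem_filter.1 (mem_coe.1 hx')).2
  obtain ⟨h1, h2, h3⟩ := hx1
  obtain ⟨h1', h2', h3'⟩ := hx1'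
  have e1 : ∀ r j, (if j = c r then ext a i₀ (b (some r)) (i₁ r) else y (some r) j) =
      if j = c r then ext a i₀ (b' (some r)) (i₁ r) else y' (some r) j := fun r j =>
    congrFun (congrFun (congrArg Prod.fst heq) r) j
  have e2 : ∀ j, (if κ none + N = 0 then b none j else y none j) =
      if κ none + N = 0 then b' none j else y' none j := fun j =>
    congrFun (congrArg Prod.snd heq) j
  have hb : ∀ r, b (some r) = b' (some r) := by
    intro r
    refine c12_eq_of_supp a i₀ ha (hne r) (h1 r).1 (h1' r).1 ?_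
    have := e1 r (c r)
    rwa [if_pos rfl, if_pos rfl] at this
  have hn : b none = b' none ∧ y none = y' none := by
    by_cases hk : κ none + N = 0
    · simp only [if_pos hk] at e2
      refine ⟨funext e2, funext fun j => ?_⟩
      have h4 := h2 hk j
      have h5 := h2' hk j
      simp only [hb] at h4
      linear_combination h4 - h5
    · simp only [if_neg hk] at e2
      refine ⟨funext fun j => ?_, funext e2⟩
      rw [h3 hk j, h3' hk j]
      simp only [hb, e2]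
  have hbb : b = b' := by
    funext s
    cases s with
    | none => exact hn.1
    | some r => exact hb r
  subst hbb
  have hyy : y = y' := by
    funext s
    cases s with
    | none => exact hn.2
    | some r =>
      have hj : ∀ j, j ≠ c r → y (some r) j = y' (some r) j := by
        intro j hj
        have := e1 r j
        rwa [if_neg hj, if_neg hj] at this
      have h4 := (h1 r).2
      have h5 := (h1' r).2
      unfold un at h4 h5
      have h6 := c12_ext_sub a i₀ (c r) hj (i₁ r)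
      have h7 := c12_ext_sub a i₀ (c r) hj (i₂ r)
      have h8 : (y (some r) (c r) - y' (some r) (c r)) *
          (c12_E (ℓ := ℓ) a i₀ (i₁ r) (c r) - c12_E (ℓ := ℓ) a i₀ (i₂ r) (c r)) = 0 := by
        linear_combination h4 - h5 - h6 + h7
      have h9 := (mul_eq_zero.1 h8).resolve_right (hc r)
      funext j
      by_cases hjc : j = c r
      · rw [hjc]
        exact sub_eq_zero.1 h9
      · exact hj j hjc
  rw [hyy]

end Algebra

end Pool.Agent.Helper54.PT
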