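import Pool.Agent.Helper54.PT.Defs

/-! # B10: expansion of the local conditions into additive characters (MP_1d384c_nt) -/

set_option autoImplicit false

namespace Pool.Agent.Helper42.TW

open Finset Filter Topology Pool.Agent.Helper54.PT

section Char

variable {ℓ : ℕ} [Fact ℓ.Prime]

theorem b10_ee_add (x y : ZMod ℓ) : ee (x + y) = ee x * ee y := AddChar.map_add_eq_mul _ _ _

theorem b10_ee_zero : ee (0 : ZMod ℓ) = 1 := AddChar.map_zero_eq_one _

theorem b10_ee_sum {ι : Type} (s : Finset ι) (f : ι → ZMod ℓ) :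
    ee (∑ i ∈ s, f i) = ∏ i ∈ s, ee (f i) := by
  classical
  induction s using Finset.induction_on with
  | empty => simp [b10_ee_zero]
  | insert a s ha ih => rw [sum_insert ha, prod_insert ha, b10_ee_add, ih]

theorem b10_sum_ee (a : ZMod ℓ) : ∑ x : ZMod ℓ, ee (x * a) = if a = 0 then (ℓ : ℂ) else 0 := by
  have := AddChar.sum_mulShift (ψ := (ZMod.stdAddChar : AddChar (ZMod ℓ) ℂ)) a
    (ZMod.isPrimitive_stdAddChar ℓ)
  rw [ZMod.card] at this
  unfold ee
  rw [this]
  split_ifs <;> simp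

theorem b10_sum_pi {ι : Type} [Fintype ι] [DecidableEq ι] (f : ι → ZMod ℓ) :
    ∑ w : ι → ZMod ℓ, ee (∑ i, w i * f i) =
      if ∀ i, f i = 0 then (ℓ : ℂ) ^ Fintype.card ι else 0 := by
  have h1 : ∀ w : ι → ZMod ℓ, ee (∑ i, w i * f i) = ∏ i, ee (w i * f i) :=
    fun w => b10_ee_sum _ _
  simp only [h1]
  rw [← Fintype.piFinset_univ, ← Finset.prod_univ_sum (fun _ => univ) (fun i x => ee (x * f i))]
  simp only [b10_sum_ee]
  split_ifs with h
  · simp [h]
  · push Not at h
    obtain ⟨i, hi⟩ := h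
    exact prod_eq_zero (mem_univ i) (if_neg hi)

theorem b10_sum_pi2 {ι J : Type} [Fintype ι] [DecidableEq ι] [Fintype J] [DecidableEq J]
    (f : ι → J → ZMod ℓ) :
    ∑ w : ι → J → ZMod ℓ, ee (∑ i, ∑ j, w i j * f i j) =
      if ∀ i j, f i j = 0 then ((ℓ : ℂ) ^ Fintype.card J) ^ Fintype.card ι else 0 := by
  have h1 : ∀ w : ι → J → ZMod ℓ, ee (∑ i, ∑ j, w i j * f i j) = ∏ i, ee (∑ j, w i j * f i j) :=
    fun w => b10_ee_sum _ _
  simp only [h1]
  rw [← Fintype.piFinset_univ,
    ← Finset.prod_univ_sum (fun _ => univ) (fun i (x : J → ZMod ℓ) => ee (∑ j, x j * f i j))]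
  simp only [b10_sum_pi]
  by_cases h : ∀ i j, f i j = 0
  · rw [if_pos h]
    simp [h]
  · rw [if_neg h]
    push Not at h
    obtain ⟨i, j, hi⟩ := h
    exact prod_eq_zero (mem_univ i) (if_neg fun h => hi (h j))

end Char

section Tup

variable {ℓ : ℕ} {σ : Type} (X : PData ℓ σ) {U : Type} [Fintype U] [DecidableEq U]

/-- The tuple of a colouring. -/
def b10_part (D : Finset X.P) (c : D → U) (u : U) : Finset X.P :=
  ((univ : Finset D).filter fun p => c p = u).map (Function.Embedding.subtype _)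

omit [Fintype U] in
theorem b10_mem_part {D : Finset X.P} {c : D → U} {u : U} {p : X.P} :
    p ∈ b10_part X D c u ↔ ∃ h : p ∈ D, c ⟨p, h⟩ = u := by
  simp [b10_part]

theorem b10_prod_part {α : Type} [CommMonoid α] (D : Finset X.P) (c : D → U) (g : U → X.P → α) :
    ∏ u, ∏ p ∈ b10_part X D c u, g u p = ∏ p : D, g (c p) p := by
  rw [← Finset.prod_fiberwise univ c]
  refine prod_congr rfl fun u _ => ?_
  rw [b10_part, prod_map]
  refine prod_congr rfl fun p hp => ?_
  rw [(mem_filter.1 hp).2]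
  rfl

theorem b10_sum_part {α : Type} [AddCommMonoid α] (D : Finset X.P) (c : D → U) (g : U → X.P → α) :
    ∑ u, ∑ p ∈ b10_part X D c u, g u p = ∑ p : D, g (c p) p := by
  rw [← Finset.sum_fiberwise univ c]
  refine sum_congr rfl fun u _ => ?_
  rw [b10_part, sum_map]
  refine sum_congr rfl fun p hp => ?_
  rw [(mem_filter.1 hp).2]
  rfl

theorem b10_sym (Φ : U → U → ZMod ℓ) (D : Finset X.P) (c : D → U) :
    ∑ u, ∑ u', Φ u u' * X.symS (b10_part X D c u) (b10_part X D c u') =
      ∑ p : D, ∑ p' : D, Φ (c p) (c p') * X.sym p p' := by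
  rw [← b10_sum_part X D c (fun u p => ∑ p' : D, Φ u (c p') * X.sym p p')]
  refine sum_congr rfl fun u _ => ?_
  unfold PData.symS
  simp only [mul_sum]
  rw [sum_comm' (t' := b10_part X D c u) (s' := fun _ => univ) (by simp)]
  refine sum_congr rfl fun p _ => ?_
  exact b10_sum_part X D c (fun u' p' => Φ u u' * X.sym p p')

theorem b10_dg_part (D : Finset X.P) (c : D → U) : ∑ u, X.dg (b10_part X D c u) = X.dg D := by
  unfold PData.dg
  rw [b10_sum_part X D c (fun _ p => X.deg p)]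
  exact Finset.sum_coe_sort D X.deg

theorem b10_tup (n : ℕ) (F : (U → Finset X.P) → ℂ) :
    ∑ m ∈ piAntidiag (univ : Finset U) n, ∑ T ∈ X.tup m, F T =
      ∑ D ∈ X.sq n, ∑ c : D → U, F (b10_part X D c) := by
  rw [Finset.sum_sigma', Finset.sum_sigma']
  symm
  refine Finset.sum_bij (fun x _ => ⟨fun u => X.dg (b10_part X x.1 x.2 u), b10_part X x.1 x.2⟩)
    ?_ ?_ ?_ ?_
  · rintro ⟨D, c⟩ h
    have hD := X.mem_sq.1 (mem_sigma.1 h).1
    refine mem_sigma.2 ⟨?_, ?_⟩
    · rw [mem_piAntidiag]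
      exact ⟨by rw [← hD]; exact b10_dg_part X D c, fun _ _ => mem_univ _⟩
    · rw [X.mem_tup]
      refine ⟨fun _ => rfl, fun u u' huu => ?_⟩
      rw [Finset.disjoint_left]
      intro p hp hp'
      obtain ⟨h1, h2⟩ := (b10_mem_part X).1 hp
      obtain ⟨h3, h4⟩ := (b10_mem_part X).1 hp'
      exact huu (h2.symm.trans h4)
  · rintro ⟨D, c⟩ h ⟨D', c'⟩ h' heq
    have h1 : b10_part X D c = b10_part X D' c' := by
      have := (Sigma.mk.inj_iff.1 heq).2
      exact eq_of_heq this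
    have h2 : D = D' := by
      ext p
      constructor
      · intro hp
        have : p ∈ b10_part X D c (c ⟨p, hp⟩) := (b10_mem_part X).2 ⟨hp, rfl⟩
        rw [h1] at this
        exact ((b10_mem_part X).1 this).1
      · intro hp
        have : p ∈ b10_part X D' c' (c' ⟨p, hp⟩) := (b10_mem_part X).2 ⟨hp, rfl⟩
        rw [← h1] at this
        exact ((b10_mem_part X).1 this).1
    subst h2
    have h3 : c = c' := by
      funext p
      have : (p : X.P) ∈ b10_part X D c (c p) := (b10_mem_part X).2 ⟨p.2, rfl⟩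
      rw [h1] at this
      exact ((b10_mem_part X).1 this).2.symm
    rw [h3]
  · rintro ⟨m, T⟩ h
    obtain ⟨h1, h2⟩ := mem_sigma.1 h
    obtain ⟨h3, h4⟩ := X.mem_tup.1 h2
    have hc : ∀ p : (univ.biUnion T : Finset X.P), ∃ u, (p : X.P) ∈ T u := fun p => by
      obtain ⟨u, _, hu⟩ := mem_biUnion.1 p.2
      exact ⟨u, hu⟩
    choose c hc using hc
    have hT : b10_part X (univ.biUnion T) c = T := by
      funext u
      ext p
      rw [b10_mem_part]
      constructor
      · rintro ⟨h5, h6⟩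
        rw [← h6]
        exact hc ⟨p, h5⟩
      · intro h5
        refine ⟨mem_biUnion.2 ⟨u, mem_univ _, h5⟩, ?_⟩
        by_contra h6
        exact Finset.disjoint_left.1 (h4 _ _ h6) (hc ⟨p, _⟩) h5
    have hm : (fun u => X.dg (b10_part X (univ.biUnion T) c u)) = m := by
      rw [hT]
      exact funext h3
    refine ⟨⟨univ.biUnion T, c⟩, mem_sigma.2 ⟨?_, mem_univ _⟩, ?_⟩
    · rw [X.mem_sq, ← b10_dg_part X _ c, hT]
      rw [← (mem_piAntidiag.1 h1).1]
      exact sum_congr rfl fun u _ => h3 u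
    · exact Sigma.ext hm (heq_of_eq hT)
  · rintro ⟨D, c⟩ _
    rfl

end Tup

end Pool.Agent.Helper42.TW

namespace Pool.Agent.Helper54.PT

open Finset Filter Topology Pool.Agent.Helper42.TW

section

variable {ℓ : ℕ} [Fact ℓ.Prime] {σ : Type} [Fintype σ] [DecidableEq σ] (X : PData ℓ σ) {q : ℕ}

variable {J : Type} [Fintype J] [DecidableEq J] (τ : (J → ZMod ℓ) →+ (J → Option σ → ZMod ℓ))
  (H : (Option σ → J → ZMod ℓ) → (Option σ → J → ZMod ℓ) → (Option σ → ZMod ℓ) → Prop)

omit [DecidableEq σ] in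
/-- The phase of a colouring. -/
theorem b10_phase (D : Finset X.P) (v w : D → J → ZMod ℓ) (b η : Option σ → J → ZMod ℓ)
    (μ : Option σ → ZMod ℓ) :
    ∑ p : D, ∑ j, w p j * pcond X τ b v p j +
        (∑ s, ∑ j, η s j * ysum X v s j + ∑ s, μ s * kap X D s) =
      ∑ p : D, dot (thet τ b η μ (v p, w p)) (X.xx p) +
        ∑ p : D, ∑ p' : D, PhiJ (v p, w p) (v p', w p') * X.sym p p' := by
  have e1 : ∀ p : D, ∀ j, w p j * pcond X τ b v p j =
      ∑ s, w p j * (b s j - τ (v p) j s) * X.xx p s +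
        ∑ p' : D, w p j * (v p' j - v p j) * X.sym p p' := by
    intro p j
    have h2 : ∑ p' : D, (if p' = p then 0 else (v p' j - v p j) * X.sym p' p) =
        ∑ p' : D, (v p' j - v p j) * X.sym p p' := by
      refine sum_congr rfl fun p' _ => ?_
      split_ifs with h
      · rw [h, sub_self, zero_mul]
      · rw [X.sym_comm p' p fun h3 => h (Subtype.ext h3)]
    unfold pcond
    rw [h2, mul_sub, mul_add, mul_sum, mul_sum, mul_sum]
    simp only [mul_sub, sub_mul, sum_sub_distrib, mul_assoc]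
    ring
  have e2 : ∑ s, ∑ j, η s j * ysum X v s j = ∑ p : D, ∑ s, ∑ j, η s j * v p j * X.xx p s := by
    have h2 : ∀ s, ∑ j, η s j * ysum X v s j = ∑ p : D, ∑ j, η s j * v p j * X.xx p s := by
      intro s
      unfold ysum
      simp only [mul_sum]
      rw [sum_comm]
      refine sum_congr rfl fun p _ => sum_congr rfl fun j _ => ?_
      ring
    simp only [h2]
    rw [sum_comm]
  have e3 : ∑ s, μ s * kap X D s = ∑ p : D, ∑ s, μ s * X.xx p s := by
    unfold kap
    simp only [mul_sum]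
    rw [sum_comm]
    exact (Finset.sum_coe_sort D fun p => ∑ s, μ s * X.xx p s).symm
  rw [e2, e3]
  simp only [e1]
  rw [← sum_add_distrib, ← sum_add_distrib, ← sum_add_distrib]
  refine sum_congr rfl fun p _ => ?_
  unfold dot thet PhiJ
  simp only [sum_add_distrib, add_mul, sum_mul]
  rw [sum_comm]
  rw [sum_comm (s := (univ : Finset J)) (t := (univ : Finset D))]
  ring

/-- B10: expansion of the local conditions at the primes of `D` into additive characters -/
theorem card_pcond (n : ℕ) (b η : Option σ → J → ZMod ℓ) (μ : Option σ → ZMod ℓ) :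
    ∑ D ∈ X.sq n, ∑ v : D → J → ZMod ℓ,
      (open Classical in if ∀ p j, pcond X τ b v p j = 0 then
        ee (∑ s, ∑ j, η s j * ysum X v s j + ∑ s, μ s * kap X D s) else 0) =
    X.ZZ (PhiJ (J := J)) (ℓ ^ Fintype.card J) (thet τ b η μ) n := by
  have hℓ : (ℓ : ℂ) ≠ 0 := by exact_mod_cast (Fact.out : ℓ.Prime).ne_zero
  unfold PData.ZZ PData.SS
  rw [b10_tup]
  refine sum_congr rfl fun D _ => ?_
  have h1 : ∀ v : D → J → ZMod ℓ,
      (open Classical in if ∀ p j, pcond X τ b v p j = 0 then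
        ee (∑ s, ∑ j, η s j * ysum X v s j + ∑ s, μ s * kap X D s) else 0) =
      ∑ w : D → J → ZMod ℓ, (((ℓ : ℂ) ^ Fintype.card J) ^ D.card)⁻¹ *
        ee (∑ p : D, ∑ j, w p j * pcond X τ b v p j +
        (∑ s, ∑ j, η s j * ysum X v s j + ∑ s, μ s * kap X D s)) := by
    intro v
    simp only [b10_ee_add]
    rw [← mul_sum, ← sum_mul, ← b10_ee_add, b10_sum_pi2, Fintype.card_coe]
    split_ifs with h
    · rw [← mul_assoc, inv_mul_cancel₀ (pow_ne_zero _ (pow_ne_zero _ hℓ)), one_mul]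
    · rw [zero_mul, mul_zero]
  simp only [h1]
  rw [← Fintype.sum_prod_type']
  refine Fintype.sum_equiv (Equiv.arrowProdEquivProdArrow D (fun _ => J → ZMod ℓ)
    (fun _ => J → ZMod ℓ)).symm _ _ ?_
  rintro ⟨v, w⟩
  unfold PData.wt
  rw [b10_prod_part X D _ (fun u p => ee (dot (thet τ b η μ u) (X.xx p)) /
    ((ℓ ^ Fintype.card J : ℕ) : ℂ))]
  rw [b10_phase, b10_sym, prod_div_distrib, ← b10_ee_sum, prod_const, card_univ, Fintype.card_coe,
    b10_ee_add]
  push_cast
  rw [div_eq_inv_mul, mul_assoc]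
  rfl

end

end Pool.Agent.Helper54.PT
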