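import Pool.Agent.Helper9.TW.St

/-!
# Project TW, module C2: Chinese remainder theorem for the polynomial `Fb a b`
-/

set_option autoImplicit false

noncomputable section

namespace Pool.Agent.Helper42.TW

open Pool.Agent.Helper9.TW Pool.Agent.Helper15.AB Pool.Agent.Helper18.TR Finset
open Pool.Agent.Helper9.SU (QQ)

theorem Fb_congr (a b b' p : ℕ) (h : b ≡ b' [MOD p]) : (p : ℤ) ∣ Fb a b ↔ (p : ℤ) ∣ Fb a b' := by
  have h0 : (b : ℤ) ≡ (b' : ℤ) [ZMOD (p : ℤ)] := Int.natCast_modEq_iff.2 h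
  have h1 : Fb a b ≡ Fb a b' [ZMOD (p : ℤ)] := by
    unfold Fb QQ
    refine Int.ModEq.mul ((h0.mul_left _).add_right _) (Int.ModEq.add ?_ ?_)
    · exact ((Int.ModEq.refl _).sub h0).pow 2
    · exact ((h0.sub (Int.ModEq.refl _)).pow 2).mul_left _
  rw [← Int.modEq_zero_iff_dvd, ← Int.modEq_zero_iff_dvd]
  exact ⟨fun h => h1.symm.trans h, fun h => h1.trans h⟩

theorem crt_card (M p : ℕ) (hM : 0 < M) (hp : 0 < p) (hco : M.Coprime p) (P Q : ℕ → Prop)
    [DecidablePred P] [DecidablePred Q]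
    (hP : ∀ b, P (b % M) ↔ P b) (hQ : ∀ b, Q (b % p) ↔ Q b) :
    ((range (M * p)).filter (fun b => P b ∧ Q b)).card =
      ((range M).filter P).card * ((range p).filter Q).card := by
  rw [← card_product]
  refine card_bij (fun b _ => (b % M, b % p)) ?_ ?_ ?_
  · intro b hb
    rw [mem_filter, mem_range] at hb
    rw [mem_product, mem_filter, mem_filter, mem_range, mem_range]
    exact ⟨⟨Nat.mod_lt _ hM, (hP b).2 hb.2.1⟩, ⟨Nat.mod_lt _ hp, (hQ b).2 hb.2.2⟩⟩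
  · intro b hb b' hb' h
    rw [mem_filter, mem_range] at hb hb'
    rw [Prod.mk.injEq] at h
    have h1 : b ≡ b' [MOD M * p] := (Nat.modEq_and_modEq_iff_modEq_mul hco).1 ⟨h.1, h.2⟩
    exact h1.eq_of_lt_of_lt hb.1 hb'.1
  · rintro ⟨x, y⟩ hxy
    rw [mem_product, mem_filter, mem_filter, mem_range, mem_range] at hxy
    obtain ⟨⟨hx, hPx⟩, ⟨hy, hQy⟩⟩ := hxy
    simp only at hx hPx hy hQy
    have h1 := (Nat.chineseRemainder hco x y).2.1
    have h2 := (Nat.chineseRemainder hco x y).2.2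
    have h3 := Nat.chineseRemainder_lt_mul hco x y hM.ne' hp.ne'
    have h4 : (Nat.chineseRemainder hco x y : ℕ) % M = x := by
      rw [h1, Nat.mod_eq_of_lt hx]
    have h5 : (Nat.chineseRemainder hco x y : ℕ) % p = y := by
      rw [h2, Nat.mod_eq_of_lt hy]
    refine ⟨(Nat.chineseRemainder hco x y : ℕ), ?_, ?_⟩
    · rw [mem_filter, mem_range]
      refine ⟨h3, (hP _).1 ?_, (hQ _).1 ?_⟩
      · rw [h4]; exact hPx
      · rw [h5]; exact hQy
    · rw [h4, h5]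

theorem C2b (a b0 : ℕ) (T : Finset ℕ) (b : ℕ) :
    (b % 30 = b0 ∧ ∀ p ∈ T, (p : ℤ) ∣ Fb a b) ↔
    ((b % (30 * ∏ p ∈ T, p)) % 30 = b0 ∧ ∀ p ∈ T, (p : ℤ) ∣ Fb a ((b % (30 * ∏ p ∈ T, p) : ℕ))) := by
  rw [Nat.mod_mod_of_dvd b (dvd_mul_right 30 (∏ p ∈ T, p))]
  refine and_congr_right fun _ => forall₂_congr fun p hp => ?_
  apply Fb_congr
  have h1 : p ∣ 30 * ∏ p ∈ T, p := (dvd_prod_of_mem _ hp).mul_left _
  exact ((Nat.mod_modEq b _).of_dvd h1).symm

theorem C2a (a b0 : ℕ) (T : Finset ℕ) (hb : b0 < 30) (hT : ∀ p ∈ T, p.Prime ∧ 7 ≤ p) :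
    ((range (30 * ∏ p ∈ T, p)).filter
      (fun β : ℕ => β % 30 = b0 ∧ ∀ p ∈ T, (p : ℤ) ∣ Fb a β)).card = ∏ p ∈ T, rt a p := by
  induction T using Finset.induction_on with
  | empty =>
    have h : (range (30 * ∏ p ∈ (∅ : Finset ℕ), p)).filter
        (fun β : ℕ => β % 30 = b0 ∧ ∀ p ∈ (∅ : Finset ℕ), (p : ℤ) ∣ Fb a β) = {b0} := by
      ext β
      rw [mem_filter, mem_range, mem_singleton, prod_empty]
      constructor
      · rintro ⟨h1, h2, _⟩; omega
      · intro h; subst h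
        exact ⟨by omega, by omega, fun p hp => absurd hp (notMem_empty p)⟩
    rw [h, card_singleton, prod_empty]
  | insert q T hq ih =>
    have hT' : ∀ p ∈ T, p.Prime ∧ 7 ≤ p := fun p hp => hT p (mem_insert_of_mem hp)
    obtain ⟨hqp, hq7⟩ := hT q (mem_insert_self q T)
    have hco : (30 * ∏ p ∈ T, p).Coprime q := by
      rw [Nat.coprime_comm, Nat.Prime.coprime_iff_not_dvd hqp]
      intro h
      rcases hqp.dvd_mul.1 h with h1 | h1
      · have h2 : q ∣ 2 * (3 * 5) := by simpa using h1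
        rcases hqp.dvd_mul.1 h2 with h3 | h3
        · have := Nat.le_of_dvd (by norm_num) h3; omega
        · rcases hqp.dvd_mul.1 h3 with h3 | h3
          · have := Nat.le_of_dvd (by norm_num) h3; omega
          · have := Nat.le_of_dvd (by norm_num) h3; omega
      · obtain ⟨p, hp, h2⟩ := (hqp.prime.dvd_finsetProd_iff _).1 h1
        have h3 := (Nat.prime_dvd_prime_iff_eq hqp (hT' p hp).1).1 h2
        exact hq (h3 ▸ hp)
    have hpos : 0 < 30 * ∏ p ∈ T, p :=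
      Nat.mul_pos (by norm_num) (prod_pos fun p hp => (hT' p hp).1.pos)
    have h1 : 30 * ∏ p ∈ insert q T, p = (30 * ∏ p ∈ T, p) * q := by
      rw [prod_insert hq]; ring
    have h2 := crt_card (30 * ∏ p ∈ T, p) q hpos hqp.pos hco
      (fun β : ℕ => β % 30 = b0 ∧ ∀ p ∈ T, (p : ℤ) ∣ Fb a β) (fun β : ℕ => (q : ℤ) ∣ Fb a β)
      (fun b => (C2b a b0 T b).symm) (fun b => Fb_congr a _ _ q (Nat.mod_modEq b q))
    have h3 : (range (30 * ∏ p ∈ insert q T, p)).filter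
        (fun β : ℕ => β % 30 = b0 ∧ ∀ p ∈ insert q T, (p : ℤ) ∣ Fb a β) =
        (range ((30 * ∏ p ∈ T, p) * q)).filter
        (fun β : ℕ => (β % 30 = b0 ∧ ∀ p ∈ T, (p : ℤ) ∣ Fb a β) ∧ (q : ℤ) ∣ Fb a β) := by
      rw [h1]
      refine filter_congr fun β _ => ?_
      rw [forall_mem_insert]
      tauto
    rw [h3, prod_insert hq, mul_comm (rt a q)]
    have h4 := ih hT'
    unfold rt at *
    rw [← h4]
    exact h2

theorem hC2 : StC2 := fun a b0 T hb hT => ⟨C2a a b0 T hb hT, C2b a b0 T⟩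

end Pool.Agent.Helper42.TW
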