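import Pool.Agent.Helper9.TW.St

/-!
# Project TW, module MER: Mertens in a box
-/

set_option autoImplicit false

noncomputable section

namespace Pool.Agent.Helper42.TW

open Pool.Agent.Helper9.TW Finset Filter Topology

theorem card_pf (a : ℕ) (ha : 1 ≤ a) : (a.primeFactors.card : ℝ) ≤ Real.log a / Real.log 2 := by
  have h1 : 2 ^ a.primeFactors.card ≤ ∏ p ∈ a.primeFactors, p :=
    pow_card_le_prod _ _ _ fun p hp => (Nat.prime_of_mem_primeFactors hp).two_le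
  have h2 : ∏ p ∈ a.primeFactors, p ≤ a := Nat.le_of_dvd (by omega) (Nat.prod_primeFactors_dvd a)
  have h3 : (2 : ℝ) ^ a.primeFactors.card ≤ a := by exact_mod_cast h1.trans h2
  have hl2 : 0 < Real.log 2 := Real.log_pos (by norm_num)
  rw [le_div_iff₀ hl2, ← Real.log_pow]
  exact Real.log_le_log (by positivity) h3

/-- the primes of the box, including the divisors of `a` -/
def bx0 (a : ℕ) (ω : ℝ) (i : ℕ) : Finset ℕ :=
  (range ⌈(a : ℝ) ^ (((i : ℝ) + 1) * ω)⌉₊).filter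
    (fun p : ℕ => p.Prime ∧ (a : ℝ) ^ ((i : ℝ) * ω) ≤ p)

theorem bx_diff (a : ℕ) (ω : ℝ) (i : ℕ) (ha : 1 ≤ a) :
    |∑ p ∈ bx0 a ω i, (1 : ℝ) / p - ∑ p ∈ bx a ω i, (1 : ℝ) / p| ≤
      Real.log a / Real.log 2 / (a : ℝ) ^ ((i : ℝ) * ω) := by
  have hsub : bx a ω i ⊆ bx0 a ω i := by
    intro p hp
    unfold bx at hp
    unfold bx0
    rw [mem_filter] at hp ⊢
    exact ⟨hp.1, hp.2.1, hp.2.2.1⟩
  have h1 : ∑ p ∈ bx0 a ω i, (1 : ℝ) / p - ∑ p ∈ bx a ω i, (1 : ℝ) / p =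
      ∑ p ∈ bx0 a ω i \ bx a ω i, (1 : ℝ) / p := by
    rw [← sum_sdiff hsub]; ring
  have ha0 : (0 : ℝ) < a := by exact_mod_cast ha
  have hpos : 0 < (a : ℝ) ^ ((i : ℝ) * ω) := Real.rpow_pos_of_pos ha0 _
  rw [h1, abs_of_nonneg (sum_nonneg fun p _ => by positivity)]
  have hmem : ∀ p ∈ bx0 a ω i \ bx a ω i, p ∈ a.primeFactors ∧ (a : ℝ) ^ ((i : ℝ) * ω) ≤ p := by
    intro p hp
    rw [Finset.mem_sdiff] at hp
    unfold bx bx0 at hp
    rw [mem_filter, mem_filter] at hp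
    obtain ⟨⟨hr, hp1, hp2⟩, hn⟩ := hp
    have hd : p ∣ a := by
      by_contra hd
      exact hn ⟨hr, hp1, hp2, hd⟩
    exact ⟨Nat.mem_primeFactors.2 ⟨hp1, hd, by omega⟩, hp2⟩
  calc ∑ p ∈ bx0 a ω i \ bx a ω i, (1 : ℝ) / p
      ≤ ∑ p ∈ bx0 a ω i \ bx a ω i, 1 / (a : ℝ) ^ ((i : ℝ) * ω) :=
        sum_le_sum fun p hp => one_div_le_one_div_of_le hpos (hmem p hp).2
    _ = ((bx0 a ω i \ bx a ω i).card : ℝ) / (a : ℝ) ^ ((i : ℝ) * ω) := by
        rw [sum_const, nsmul_eq_mul]; ring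
    _ ≤ Real.log a / Real.log 2 / (a : ℝ) ^ ((i : ℝ) * ω) := by
        refine div_le_div_of_nonneg_right ?_ hpos.le
        refine le_trans ?_ (card_pf a ha)
        exact_mod_cast card_le_card fun p hp => (hmem p hp).1

theorem hMER (hM : Pool.Agent.Helper60.GP.StM2) : StMER := by
  intro ω i hω hi
  have hi0 : (0 : ℝ) < i := by exact_mod_cast hi
  have h0 : Tendsto (fun a : ℕ => ∑ p ∈ bx0 a ω i, (1 : ℝ) / p) atTop (𝓝 (gm i)) := by
    rw [Metric.tendsto_atTop]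
    intro ε hε
    obtain ⟨z0, hz⟩ := hM ((i : ℝ) * ω) (((i : ℝ) + 1) * ω) (by positivity)
      (mul_le_mul_of_nonneg_right (by linarith) hω.le) (ε / 2) (by linarith)
    refine ⟨⌈z0⌉₊, fun a ha => ?_⟩
    have h1 := hz a (Nat.ceil_le.1 ha)
    have h2 : ((i : ℝ) + 1) * ω / ((i : ℝ) * ω) = ((i : ℝ) + 1) / i := by
      field_simp
    rw [h2] at h1
    rw [Real.dist_eq]
    unfold bx0 gm
    exact lt_of_le_of_lt h1 (by linarith)
  have hlim : Tendsto (fun a : ℕ => Real.log a / Real.log 2 / (a : ℝ) ^ ((i : ℝ) * ω)) atTop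
      (𝓝 0) := by
    have h1 : Tendsto (fun x : ℝ => Real.log x / x ^ ((i : ℝ) * ω)) atTop (𝓝 0) :=
      (isLittleO_log_rpow_atTop (by positivity)).tendsto_div_nhds_zero
    have h2 := (h1.comp tendsto_natCast_atTop_atTop).div_const (Real.log 2)
    rw [zero_div] at h2
    refine h2.congr fun a => ?_
    simp only [Function.comp]
    ring
  have hdiff : Tendsto (fun a : ℕ => ∑ p ∈ bx0 a ω i, (1 : ℝ) / p - ∑ p ∈ bx a ω i, (1 : ℝ) / p)
      atTop (𝓝 0) := by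
    refine squeeze_zero_norm' ?_ hlim
    filter_upwards [eventually_ge_atTop 1] with a ha
    exact bx_diff a ω i ha
  have h3 := h0.sub hdiff
  rw [sub_zero] at h3
  refine h3.congr fun a => ?_
  ring

end Pool.Agent.Helper42.TW
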