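import Pool.Agent.Helper9.TW.St

/-!
# Project TW, module PAR: pairs of primes of one box
-/

set_option autoImplicit false

noncomputable section

namespace Pool.Agent.Helper42.TW

open Pool.Agent.Helper9.TW Finset Filter Topology

theorem sq_split (B : Finset ℕ) (f : ℕ → ℝ) :
    (∑ p ∈ B, f p) ^ 2 = 2 * ∑ p ∈ B, ∑ p' ∈ B, (if p < p' then f p * f p' else 0) +
      ∑ p ∈ B, f p ^ 2 := by
  have h1 : (∑ p ∈ B, f p) ^ 2 = ∑ p ∈ B, ∑ p' ∈ B, f p * f p' := by
    rw [sq, sum_mul_sum]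
  have h2 : ∀ p ∈ B, ∀ p' ∈ B, f p * f p' = (if p < p' then f p * f p' else 0) +
      (if p' < p then f p' * f p else 0) + (if p = p' then f p * f p' else 0) := by
    intro p _ p' _
    rcases lt_trichotomy p p' with h | h | h
    · rw [if_pos h, if_neg (by omega), if_neg (by omega)]; ring
    · subst h
      simp
    · rw [if_neg (by omega), if_pos h, if_neg (by omega)]; ring
  have h3 : ∑ p ∈ B, ∑ p' ∈ B, (if p' < p then f p' * f p else 0) =
      ∑ p ∈ B, ∑ p' ∈ B, (if p < p' then f p * f p' else 0) := sum_comm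
  have h4 : ∑ p ∈ B, ∑ p' ∈ B, (if p = p' then f p * f p' else 0) = ∑ p ∈ B, f p ^ 2 := by
    refine sum_congr rfl fun p hp => ?_
    rw [sum_ite_eq B p (fun p' => f p * f p'), if_pos hp, sq]
  rw [h1, sum_congr rfl fun p hp => sum_congr rfl (h2 p hp)]
  simp only [sum_add_distrib]
  rw [h3, h4]
  ring

theorem ms_pr2 (a : ℕ) (ω : ℝ) (i : ℕ) (ha : 2 ≤ a) (hi : ((i : ℝ) + 1) * ω ≤ 1) :
    ms a (pr2 a ω i) =
      ((∑ p ∈ bx a ω i, (1 : ℝ) / p) ^ 2 - ∑ p ∈ bx a ω i, ((1 : ℝ) / p) ^ 2) / 2 := by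
  classical
  have ha1 : (1 : ℝ) ≤ a := by exact_mod_cast (by omega : 1 ≤ a)
  have hprime : ∀ p ∈ bx a ω i, p.Prime := by
    intro p hp
    unfold bx at hp
    exact (mem_filter.1 hp).2.1
  have hlt : ∀ p ∈ bx a ω i, p < a := by
    intro p hp
    unfold bx at hp
    rw [mem_filter, mem_range] at hp
    have h1 := Nat.lt_ceil.1 hp.1
    have h2 : (a : ℝ) ^ (((i : ℝ) + 1) * ω) ≤ (a : ℝ) ^ (1 : ℝ) :=
      Real.rpow_le_rpow_of_exponent_le ha1 hi
    rw [Real.rpow_one] at h2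
    exact_mod_cast h1.trans_le h2
  have h0 := sq_split (bx a ω i) (fun p => (1 : ℝ) / p)
  have h1 : ms a (pr2 a ω i) =
      ∑ q ∈ (range (a ^ 2 + 1)).filter
        (fun q => ∃ p ∈ bx a ω i, ∃ p' ∈ bx a ω i, p < p' ∧ q = p * p'), (1 : ℝ) / q := by
    unfold ms pr2
    rw [sum_filter]
    refine sum_congr rfl fun q _ => ?_
    split_ifs
    · rfl
    · simp
  have h2 : (range (a ^ 2 + 1)).filter
      (fun q => ∃ p ∈ bx a ω i, ∃ p' ∈ bx a ω i, p < p' ∧ q = p * p') =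
      ((bx a ω i ×ˢ bx a ω i).filter (fun x => x.1 < x.2)).image (fun x => x.1 * x.2) := by
    ext q
    rw [mem_filter, mem_image, mem_range]
    constructor
    · rintro ⟨_, p, hp, p', hp', hlt', rfl⟩
      exact ⟨(p, p'), by rw [mem_filter, mem_product]; exact ⟨⟨hp, hp'⟩, hlt'⟩, rfl⟩
    · rintro ⟨⟨p, p'⟩, hx, rfl⟩
      rw [mem_filter, mem_product] at hx
      obtain ⟨⟨hp, hp'⟩, hlt'⟩ := hx
      simp only at hp hp' hlt' ⊢
      refine ⟨?_, p, hp, p', hp', hlt', rfl⟩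
      have h3 := hlt p hp
      have h4 := hlt p' hp'
      nlinarith
  have h3 : Set.InjOn (fun x : ℕ × ℕ => x.1 * x.2)
      ((bx a ω i ×ˢ bx a ω i).filter (fun x => x.1 < x.2) : Finset (ℕ × ℕ)) := by
    rintro ⟨p, p'⟩ hx ⟨r, r'⟩ hy h
    rw [mem_coe, mem_filter, mem_product] at hx hy
    obtain ⟨⟨hp, hp'⟩, hlt1⟩ := hx
    obtain ⟨⟨hr, hr'⟩, hlt2⟩ := hy
    simp only at hp hp' hlt1 hr hr' hlt2 h
    have P := hprime p hp
    have P' := hprime p' hp'
    have R := hprime r hr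
    have R' := hprime r' hr'
    have h4 : p ∣ r * r' := h ▸ dvd_mul_right p p'
    rcases P.dvd_mul.1 h4 with h5 | h5
    · have h6 := (Nat.prime_dvd_prime_iff_eq P R).1 h5
      subst h6
      have h7 := Nat.eq_of_mul_eq_mul_left P.pos h
      rw [h7]
    · have h6 := (Nat.prime_dvd_prime_iff_eq P R').1 h5
      subst h6
      have h7 : p' = r := by
        rw [mul_comm] at h
        exact Nat.eq_of_mul_eq_mul_right P.pos h
      omega
  rw [h1, h2, sum_image h3, sum_filter, sum_product]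
  have h5 : ∑ p ∈ bx a ω i, ∑ p' ∈ bx a ω i,
      (if (p, p').1 < (p, p').2 then (1 : ℝ) / (((p, p').1 * (p, p').2 : ℕ)) else 0) =
      ∑ p ∈ bx a ω i, ∑ p' ∈ bx a ω i, (if p < p' then (1 : ℝ) / p * (1 / p') else 0) := by
    refine sum_congr rfl fun p _ => sum_congr rfl fun p' _ => ?_
    split_ifs
    · push_cast
      rw [one_div_mul_one_div]
    · rfl
  rw [h5]
  linarith

theorem hPAR (hM : StMER) : StPAR := by
  intro ω i hω hi1 hi
  have hS := hM ω i hω hi1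
  have hi0 : (0 : ℝ) < i := by exact_mod_cast hi1
  have hpw : Tendsto (fun a : ℕ => ((a : ℝ) ^ ((i : ℝ) * ω))⁻¹) atTop (𝓝 0) := by
    have h1 : Tendsto (fun x : ℝ => x ^ ((i : ℝ) * ω)) atTop atTop :=
      tendsto_rpow_atTop (by positivity)
    exact (h1.comp tendsto_natCast_atTop_atTop).inv_tendsto_atTop
  have hQ : Tendsto (fun a : ℕ => ∑ p ∈ bx a ω i, ((1 : ℝ) / p) ^ 2) atTop (𝓝 0) := by
    have h1 := hpw.mul hS
    rw [zero_mul] at h1
    refine squeeze_zero' (Eventually.of_forall fun a => sum_nonneg fun p _ => sq_nonneg _) ?_ h1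
    filter_upwards [eventually_ge_atTop 1] with a ha
    have ha0 : (0 : ℝ) < a := by exact_mod_cast ha
    have hpos : 0 < (a : ℝ) ^ ((i : ℝ) * ω) := Real.rpow_pos_of_pos ha0 _
    rw [mul_sum]
    refine sum_le_sum fun p hp => ?_
    unfold bx at hp
    rw [mem_filter] at hp
    have h2 : (1 : ℝ) / p ≤ ((a : ℝ) ^ ((i : ℝ) * ω))⁻¹ := by
      rw [← one_div]
      exact one_div_le_one_div_of_le hpos hp.2.2.1
    rw [sq]
    exact mul_le_mul_of_nonneg_right h2 (by positivity)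
  have h1 := ((hS.pow 2).sub hQ).div_const 2
  rw [sub_zero] at h1
  refine h1.congr' ?_
  filter_upwards [eventually_ge_atTop 2] with a ha
  exact (ms_pr2 a ω i ha hi).symm

end Pool.Agent.Helper42.TW
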