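import Pool.Agent.Helper54.PT.DefsE

/-! # S7: prime sums and character sums over extension fields (MP_1d384c_nt) -/

set_option autoImplicit false

namespace Pool.Agent.Helper42.TW

open Polynomial Finset Module Pool.Agent.Helper54.PT

variable {F : Type} [Field F] {lg : F → ZMod 2}

theorem s7_lg_one (hlg : IsLog 2 lg) : lg 1 = 0 := by
  have h := hlg.1 1 1 one_ne_zero one_ne_zero
  rw [mul_one] at h
  exact add_eq_left.1 h.symm

theorem s7_lg_pow (hlg : IsLog 2 lg) {c : F} (hc : c ≠ 0) (n : ℕ) : lg (c ^ n) = n * lg c := by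
  induction n with
  | zero => rw [pow_zero, s7_lg_one hlg, Nat.cast_zero, zero_mul]
  | succ n ih =>
    rw [pow_succ, hlg.1 _ _ (pow_ne_zero n hc) hc, ih, Nat.cast_succ]
    ring

theorem s7_ee_zero : ee (0 : ZMod 2) = 1 := AddChar.map_zero_eq_one _

theorem s7_ee_one : ee (1 : ZMod 2) = -1 := by
  have h1 : ee (1 : ZMod 2) * ee (1 : ZMod 2) = 1 := by
    rw [← s7_ee_zero]
    unfold ee
    rw [← AddChar.map_add_eq_mul]
    rfl
  have h2 : ee (1 : ZMod 2) ≠ 1 := by
    intro h
    have h3 : ZMod.stdAddChar (N := 2) (1 : ZMod 2) = ZMod.stdAddChar (N := 2) (0 : ZMod 2) := by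
      rw [AddChar.map_zero_eq_one]
      exact h
    exact absurd (ZMod.injective_stdAddChar h3) (by decide)
  have h3 : (ee (1 : ZMod 2) - 1) * (ee (1 : ZMod 2) + 1) = 0 := by linear_combination h1
  have h4 := (mul_eq_zero.1 h3).resolve_left (sub_ne_zero.2 h2)
  linear_combination h4

theorem s7_ee_pow (x : ZMod 2) (n : ℕ) : ee x ^ n = ee ((n : ZMod 2) * x) := by
  unfold ee
  rw [← nsmul_eq_mul, AddChar.map_nsmul_eq_pow]

theorem s7_char [Finite F] (hlg : IsLog 2 lg) : ringChar F ≠ 2 := by
  intro h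
  have := Fintype.ofFinite F
  obtain ⟨x, hx, hx1⟩ := hlg.2.2 1
  have h2 : ∃ y, y ^ 2 = x := by
    obtain ⟨y, hy⟩ := FiniteField.isSquare_of_char_two h x
    exact ⟨y, by rw [hy]; ring⟩
  have h3 := (hlg.2.1 x hx).2 h2
  rw [hx1] at h3
  exact absurd h3 (by decide)

theorem s7_isSquare_norm [Finite F] (hlg : IsLog 2 lg) (K : Type) [Field K] [Fintype K]
    [Algebra F K] {y : K} (hy : y ≠ 0) :
    IsSquare y ↔ IsSquare (Algebra.norm F y) := by
  constructor
  · rintro ⟨z, rfl⟩
    exact ⟨Algebra.norm F z, map_mul _ _ _⟩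
  · intro h
    have := Fintype.ofFinite F
    have hc := s7_char hlg
    have hcK : ringChar K ≠ 2 := by
      have h5 : CharP K (ringChar F) := charP_of_injective_algebraMap' F (ringChar F)
      rw [(ringChar.eq_iff).2 h5]
      exact hc
    have hN : Algebra.norm F y ≠ 0 := Algebra.norm_ne_zero_iff.2 hy
    have h1 := (FiniteField.isSquare_iff hc hN).1 h
    rw [FiniteField.isSquare_iff hcK hy]
    have h2 := FiniteField.algebraMap_norm_eq_pow (K := F) (x := y)
    have h3 : algebraMap F K (Algebra.norm F y ^ (Fintype.card F / 2)) = 1 := by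
      rw [h1, map_one]
    rw [map_pow, h2, ← pow_mul, Nat.card_eq_fintype_card, Nat.card_eq_fintype_card] at h3
    have h4 : (Fintype.card K - 1) / (Fintype.card F - 1) * (Fintype.card F / 2) =
        Fintype.card K / 2 := by
      have hd : Fintype.card F - 1 ∣ Fintype.card K - 1 := by
        rw [Module.card_eq_pow_finrank (K := F) (V := K)]
        have h6 := Nat.sub_dvd_pow_sub_pow (Fintype.card F) 1 (finrank F K)
        rwa [one_pow] at h6
      have hF := FiniteField.odd_card_of_char_ne_two hc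
      have hK := FiniteField.odd_card_of_char_ne_two hcK
      obtain ⟨c, hcF⟩ : ∃ c, Fintype.card F = 2 * c + 1 := ⟨Fintype.card F / 2, by omega⟩
      obtain ⟨e, he⟩ := hd
      have h1F : 1 < Fintype.card F := Fintype.one_lt_card
      have hc0 : 0 < c := by omega
      rw [he, Nat.mul_div_cancel_left _ (by omega)]
      have h5 : Fintype.card K = (Fintype.card F - 1) * e + 1 := by
        have : 1 < Fintype.card K := Fintype.one_lt_card
        omega
      rw [h5, hcF]
      have h6 : (2 * c + 1 - 1) * e + 1 = 2 * (c * e) + 1 := by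
        rw [Nat.add_sub_cancel]
        ring
      rw [h6]
      have h7 : (2 * c + 1) / 2 = c := by omega
      have h8 : (2 * (c * e) + 1) / 2 = c * e := by omega
      rw [h7, h8, mul_comm]
    rw [h4] at h3
    exact h3

theorem s7_quad [Finite F] (hlg : IsLog 2 lg) (K : Type) [Field K] [Fintype K] [DecidableEq K]
    [Algebra F K] {y : K} (hy : y ≠ 0) :
    ((quadraticChar K y : ℤ) : ℂ) = ee (lg (Algebra.norm F y)) := by
  have hN : Algebra.norm F y ≠ 0 := Algebra.norm_ne_zero_iff.2 hy
  have h1 : IsSquare (Algebra.norm F y) ↔ lg (Algebra.norm F y) = 0 := by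
    rw [hlg.2.1 _ hN]
    constructor
    · rintro ⟨z, hz⟩
      exact ⟨z, by rw [hz]; ring⟩
    · rintro ⟨z, hz⟩
      exact ⟨z, by rw [← hz]; ring⟩
  by_cases h : IsSquare y
  · rw [(quadraticChar_one_iff_isSquare hy).2 h, h1.1 ((s7_isSquare_norm hlg K hy).1 h), s7_ee_zero]
    norm_num
  · rw [quadraticChar_neg_one_iff_not_isSquare.2 h]
    have h2 : lg (Algebra.norm F y) ≠ 0 := fun h3 => h ((s7_isSquare_norm hlg K hy).2 (h1.2 h3))
    have h3 : lg (Algebra.norm F y) = 1 := by
      revert h2
      generalize lg (Algebra.norm F y) = z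
      revert z
      decide
    rw [h3, s7_ee_one]
    norm_num

/-- The minimal polynomial as a prime. -/
noncomputable def s7_mp (F : Type) [Field F] (K : Type) [Field K] [Algebra F K]
    [FiniteDimensional F K] (x : K) : Prm F :=
  ⟨minpoly F x, minpoly.monic (Algebra.IsIntegral.isIntegral x),
    minpoly.irreducible (Algebra.IsIntegral.isIntegral x)⟩

theorem s7_mp_iff (K : Type) [Field K] [Algebra F K] [FiniteDimensional F K] (P : Prm F) (x : K) :
    s7_mp F K x = P ↔ aeval x P.1 = 0 := by
  constructor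
  · rintro rfl
    exact minpoly.aeval F x
  · intro h
    exact Subtype.ext (minpoly.eq_of_irreducible_of_monic P.2.2 h P.2.1).symm

theorem s7_card (K : Type) [Field K] [Fintype K] [Algebra F K] [FiniteDimensional F K] (P : Prm F)
    (h : P.1.natDegree ∣ finrank F K) :
    (open Classical in (univ.filter fun x : K => s7_mp F K x = P).card) = P.1.natDegree := by
  classical
  have hfact : Fact (Irreducible P.1) := ⟨P.2.2⟩
  have hdeg : finrank F (AdjoinRoot P.1) = P.1.natDegree := by
    rw [(AdjoinRoot.powerBasis P.2.1.ne_zero).finrank, AdjoinRoot.powerBasis_dim]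
  have h1 := FiniteField.natCard_algHom_of_finrank_dvd (F := F) (K := AdjoinRoot P.1) (L := K)
    (by rw [hdeg]; exact h)
  rw [hdeg] at h1
  rw [← h1, Nat.card_congr (AdjoinRoot.equiv K F P.1 P.2.1.ne_zero), Nat.card_eq_fintype_card,
    ← Fintype.card_coe]
  refine Fintype.card_congr (Equiv.subtypeEquivRight fun x => ?_)
  rw [mem_filter, s7_mp_iff, mem_aroots]
  simp [P.2.1.ne_zero]

theorem s7_value [Finite F] (hlg : IsLog 2 lg) (K : Type) [Field K] [Fintype K] [DecidableEq K]
    [Algebra F K] [FiniteDimensional F K] (M : F[X]) (x : K) :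
    ((quadraticChar K (aeval x M) : ℤ) : ℂ) =
      (open Classical in if (s7_mp F K x).1 ∣ M then (0 : ℂ) else ee (sy lg (s7_mp F K x).1 M)) ^
        (finrank F K / (s7_mp F K x).1.natDegree) := by
  classical
  have hint := Algebra.IsIntegral.isIntegral (R := F) x
  have hP : (s7_mp F K x).1 = minpoly F x := rfl
  rw [hP]
  have hfact : Fact (Irreducible (minpoly F x)) := ⟨minpoly.irreducible hint⟩
  let φ : AdjoinRoot (minpoly F x) →ₐ[F] K :=
    AdjoinRoot.liftAlgHom (minpoly F x) (Algebra.ofId F K) x (minpoly.aeval F x)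
  have hdeg : finrank F (AdjoinRoot (minpoly F x)) = (minpoly F x).natDegree := by
    rw [(AdjoinRoot.powerBasis (minpoly.ne_zero hint)).finrank, AdjoinRoot.powerBasis_dim]
  have hpos : 0 < (minpoly F x).natDegree := minpoly.natDegree_pos hint
  algebraize [φ.toRingHom]
  have htow : IsScalarTower F (AdjoinRoot (minpoly F x)) K :=
    IsScalarTower.of_algebraMap_eq fun c => (φ.commutes c).symm
  have hmul := Module.finrank_mul_finrank F (AdjoinRoot (minpoly F x)) K
  rw [hdeg] at hmul
  have hq : finrank F K / (minpoly F x).natDegree = finrank (AdjoinRoot (minpoly F x)) K := by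
    rw [← hmul, Nat.mul_div_cancel_left _ hpos]
  have hKpos : 0 < finrank (AdjoinRoot (minpoly F x)) K := by
    have h1 : 0 < finrank F K := Module.finrank_pos
    rw [← hmul] at h1
    exact Nat.pos_of_mul_pos_left h1
  rw [hq]
  by_cases hd : minpoly F x ∣ M
  · rw [if_pos hd, (minpoly.dvd_iff).1 hd, quadraticChar_zero, zero_pow hKpos.ne']
    norm_num
  · rw [if_neg hd]
    have hy : aeval x M ≠ 0 := fun h => hd (minpoly.dvd_iff.2 h)
    rw [s7_quad hlg K hy, s7_ee_pow]
    congr 1
    have hφ : algebraMap (AdjoinRoot (minpoly F x)) K (AdjoinRoot.mk _ M) = aeval x M := by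
      change φ (AdjoinRoot.mk _ M) = aeval x M
      rfl
    have hnorm : Algebra.norm F (aeval x M) =
        nm (minpoly F x) M ^ finrank (AdjoinRoot (minpoly F x)) K := by
      rw [← hφ, ← Algebra.norm_norm (S := AdjoinRoot (minpoly F x)), Algebra.norm_algebraMap,
        map_pow]
      rfl
    have hnm : nm (minpoly F x) M ≠ 0 := by
      intro h0
      rw [h0, zero_pow hKpos.ne'] at hnorm
      exact (Algebra.norm_ne_zero_iff.2 hy) hnorm
    rw [hnorm, s7_lg_pow hlg hnm]
    rfl

end Pool.Agent.Helper42.TW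

namespace Pool.Agent.Helper54.PT

open Polynomial Finset Filter Topology Module Pool.Agent.Helper42.TW

/-- S7: prime sums and character sums -/
theorem sum_prm_char {F : Type} [Field F] [Finite F] {lg : F → ZMod 2} (hlg : IsLog 2 lg)
    (M : F[X]) (hM : M ≠ 0) (k : ℕ) (hk : 1 ≤ k) (K : Type) [Field K] [Fintype K] [DecidableEq K]
    [Algebra F K] (hK : finrank F K = k) :
    ∑ j ∈ k.divisors, ∑ P ∈ prm F j, (j : ℂ) *
      (open Classical in if P.1 ∣ M then (0 : ℂ) else ee (sy lg P.1 M)) ^ (k / j) =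
    ∑ x : K, ((quadraticChar K (aeval x M) : ℤ) : ℂ) := by
  classical
  have hfd : FiniteDimensional F K := Module.finite_of_finrank_pos (by omega)
  have hdvd : ∀ x : K, (s7_mp F K x).1.natDegree ∈ k.divisors := by
    intro x
    rw [Nat.mem_divisors]
    refine ⟨?_, by omega⟩
    rw [← hK]
    exact minpoly.degree_dvd (Algebra.IsIntegral.isIntegral x)
  rw [← Finset.sum_fiberwise_of_maps_to (s := univ) (t := k.divisors) (fun x _ => hdvd x)]
  refine sum_congr rfl fun j hj => ?_
  rw [← Finset.sum_fiberwise_of_maps_to (s := univ.filter fun x => (s7_mp F K x).1.natDegree = j)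
    (t := prm F j) (g := fun x => s7_mp F K x) (fun x hx => mem_prm.2 (mem_filter.1 hx).2)]
  refine sum_congr rfl fun P hP => ?_
  have hPj : P.1.natDegree = j := mem_prm.1 hP
  have h1 : (univ.filter fun x : K => (s7_mp F K x).1.natDegree = j).filter
      (fun x => s7_mp F K x = P) = univ.filter fun x : K => s7_mp F K x = P := by
    ext x
    simp only [mem_filter, mem_univ, true_and]
    constructor
    · exact fun h => h.2
    · intro h
      exact ⟨by rw [h, hPj], h⟩
  rw [h1]
  have h2 : ∀ x ∈ univ.filter (fun x : K => s7_mp F K x = P),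
      ((quadraticChar K (aeval x M) : ℤ) : ℂ) =
        (if P.1 ∣ M then (0 : ℂ) else ee (sy lg P.1 M)) ^ (k / j) := by
    intro x hx
    have h3 := (mem_filter.1 hx).2
    rw [s7_value hlg K M x, h3, hPj, hK]
  rw [sum_congr rfl h2, sum_const, nsmul_eq_mul]
  congr 1
  rw [← hPj] at hj ⊢
  have h3 := s7_card K P (by rw [hK]; exact (Nat.mem_divisors.1 hj).1)
  exact_mod_cast h3.symm

end Pool.Agent.Helper54.PT
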